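import Pool.Agent.TH167.RD.Comp

set_option autoImplicit false

/-!
# The superabundance of arbitrary systems
-/

namespace Pool.Agent.TH167.RD

open MvPolynomial Pool.Agent.W609 Pool.Agent.W609.CR Pool.Agent.TH167.SH Pool.Agent.TH167.TT
  Pool.Agent.TH167.DD Pool.Agent.TH167.T3 Pool.Agent.H248R5 Pool.Agent.H248R6
  Pool.Agent.W641.CR Pool.Agent.TH167.SM

theorem ip_split {s m : ℕ} (d c : ℕ) (A B : Fin (s + m) → ℕ)
    (hB : ∀ k : Fin m, B (finSumFinEquiv (Sum.inr k)) = 0) :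
    ip d A c B = ip d (fun i => A (finSumFinEquiv (Sum.inl i))) c
      (fun i => B (finSumFinEquiv (Sum.inl i))) := by
  unfold ip
  have h1 : ∑ j, (A j : ℤ) * B j = ∑ i : Fin s, (A (finSumFinEquiv (Sum.inl i)) : ℤ) *
      B (finSumFinEquiv (Sum.inl i)) := by
    rw [← Equiv.sum_comp finSumFinEquiv, Fintype.sum_sum_type]
    have h2 : ∑ k : Fin m, (A (finSumFinEquiv (Sum.inr k)) : ℤ) *
        B (finSumFinEquiv (Sum.inr k)) = 0 := by
      refine Finset.sum_eq_zero fun k _ => ?_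
      rw [hB k]
      simp
    rw [h2, add_zero]
  rw [h1]

/-- The superabundance of arbitrary systems at generic points. -/
theorem alt {K : Type} [Field K] [CharZero K] [IsAlgClosed K] {s : ℕ}
    {P : Fin s → Fin 2 → K}
    (hP : AlgebraicIndependent ℚ (fun ij : Fin s × Fin 2 => P ij.1 ij.2)) {w : Fin s → ℕ}
    {d : ℕ} (hpos : 0 < Module.finrank K ↥(VS (fun j => aff (P j)) w d))
    {S : Finset (Fin s)} (hS : S.card ≤ 9) :
    (Module.finrank K ↥(VS (fun j => aff (P j)) w d) : ℤ) ≤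
      chi d w + ((∑ j, (if j ∈ S then 0 else w j - 2) : ℕ) : ℤ) ∨
    ∃ (C : MvPolynomial (Fin 3) K) (c : ℕ) (u : Fin s → ℕ), Irreducible C ∧
      C.IsHomogeneous c ∧ (∀ j, Ord (aff (P j)) (u j) C) ∧ ip c u c u < 0 ∧
      ip d w c u < ip c u c u ∧ ∀ j, 2 * u j ≤ w j := by
  classical
  have hfin := vs_fin (fun j => aff (P j)) w d
  obtain ⟨n, hn⟩ : ∃ n, Module.finrank K ↥(VS (fun j => aff (P j)) w d) = n + 1 :=
    ⟨Module.finrank K ↥(VS (fun j => aff (P j)) w d) - 1, by omega⟩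
  let b : Module.Basis (Fin (n + 1)) K ↥(VS (fun j => aff (P j)) w d) :=
    Module.finBasisOfFinrankEq K _ hn
  obtain ⟨L, i1, i2, i3, i4, Q, t, D, hPQ, hD, hK, hN, h1, -⟩ := gen_member hP b
  obtain ⟨ww, hww⟩ : ∃ ww, ww = wwt w (fun k : Fin (n + 4) => if k.1 < n then 1 else 0) :=
    ⟨_, rfl⟩
  rw [← hww] at h1
  obtain ⟨G, hG, hG0⟩ := exists_mem (P := PPt P Q) (w := ww) (d := d) (by omega)
  obtain ⟨T, hT⟩ : ∃ T : Finset (Fin (s + (n + 4))),
    T = S.map ⟨fun j => finSumFinEquiv (Sum.inl j), fun a b h => by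
      simpa using h⟩ := ⟨_, rfl⟩
  have hTc : T.card ≤ 9 := by
    rw [hT, Finset.card_map]
    exact hS
  have hTl : ∀ i : Fin s, finSumFinEquiv (Sum.inl i) ∈ T ↔ i ∈ S := by
    intro i
    rw [hT, Finset.mem_map]
    constructor
    · rintro ⟨j, hj, hij⟩
      have h2 : (finSumFinEquiv (Sum.inl j) : Fin (s + (n + 4))) = finSumFinEquiv (Sum.inl i) := hij
      have h3 := Sum.inl.inj (finSumFinEquiv.injective h2)
      rwa [← h3]
    · intro hi
      exact ⟨i, hi, rfl⟩
  have hTr : ∀ k : Fin (n + 4), (finSumFinEquiv (Sum.inr k) : Fin (s + (n + 4))) ∉ T := by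
    intro k hk
    rw [hT, Finset.mem_map] at hk
    obtain ⟨j, -, hij⟩ := hk
    have h2 : (finSumFinEquiv (Sum.inl j) : Fin (s + (n + 4))) = finSumFinEquiv (Sum.inr k) := hij
    exact absurd (finSumFinEquiv.injective h2) (by simp)
  have hGm := (mem_VS _ _ _ _).1 hG
  have hord := exact_ord hPQ h1 hG hG0
  rcases rigid_or (r := s + n) (S := T) hTc hPQ hG0 (d := d) (w := ww) hGm.1 hord with hb |
    ⟨C1, c, uu, c1, c2, c3, c4, c5⟩
  · left
    have hcost : ∑ j, (if j ∈ T then 0 else ww j - 2) =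
        ∑ j, (if j ∈ S then 0 else w j - 2) := by
      rw [← Equiv.sum_comp finSumFinEquiv, Fintype.sum_sum_type]
      have e1 : ∀ i : Fin s, (if finSumFinEquiv (Sum.inl i) ∈ T then 0 else
          ww (finSumFinEquiv (Sum.inl i)) - 2) = if i ∈ S then 0 else w i - 2 := by
        intro i
        rw [hww, wwt_inl]
        by_cases hi : i ∈ S
        · rw [if_pos hi, if_pos ((hTl i).2 hi)]
        · rw [if_neg hi, if_neg fun h => hi ((hTl i).1 h)]
      have e2 : ∀ k : Fin (n + 4), (if finSumFinEquiv (Sum.inr k) ∈ T then 0 else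
          ww (finSumFinEquiv (Sum.inr k)) - 2) = 0 := by
        intro k
        rw [if_neg (hTr k), hww, wwt_inr]
        split_ifs <;> rfl
      rw [Finset.sum_congr rfl fun i _ => e1 i, Finset.sum_congr rfl fun k _ => e2 k]
      simp
    have hb2 : (1 : ℤ) ≤ chi (s := s + (n + 4)) d ww +
        ((∑ j : Fin (s + (n + 4)), (if j ∈ T then 0 else ww j - 2) : ℕ) : ℤ) := hb
    rw [hcost, chi_cast, hww, wwt_choose (n := n) w] at hb2
    rw [hn, chi_cast]
    push_cast at hb2 ⊢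
    linarith
  · right
    obtain ⟨g1, g2⟩ := neg_comp (s := s + n + 4) (inj_of_alg hPQ) hG0 hGm.1 hord c1 c2 c3 c4 c5
    have g1' : ip (s := s + (n + 4)) c uu c uu < 0 := g1
    have c5' : ip (s := s + (n + 4)) d ww c uu < ip (s := s + (n + 4)) c uu c uu := c5
    have g2' : ∀ j : Fin (s + (n + 4)), 2 * uu j ≤ ww j := g2
    have c3' : ∀ j : Fin (s + (n + 4)), Ord (aff (PPt P Q j)) (uu j) C1 := c3
    have hz : ∀ k : Fin (n + 4), uu (finSumFinEquiv (Sum.inr k) : Fin (s + (n + 4))) = 0 := by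
      intro k
      have g3 := g2' (finSumFinEquiv (Sum.inr k))
      rw [hww, wwt_inr] at g3
      split_ifs at g3 <;> omega
    obtain ⟨u, hu⟩ : ∃ u : Fin s → ℕ, u = fun i =>
        uu (finSumFinEquiv (Sum.inl i) : Fin (s + (n + 4))) := ⟨_, rfl⟩
    have hwl : (fun i : Fin s => ww (finSumFinEquiv (Sum.inl i) : Fin (s + (n + 4)))) = w := by
      funext i
      rw [hww, wwt_inl]
    have k1 := ip_split (s := s) (m := n + 4) c c uu uu hz
    have k2 := ip_split (s := s) (m := n + 4) d c ww uu hz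
    rw [k1, ← hu] at g1' c5'
    rw [k2, ← hu, hwl] at c5'
    have hle : ∀ j, 2 * u j ≤ w j := by
      intro j
      have g3 := g2' (finSumFinEquiv (Sum.inl j))
      rw [hww, wwt_inl] at g3
      rw [hu]
      exact g3
    have hPL := alg_ind_map (L := L) hP
    have hordL : ∀ j, Ord (aff (fun a => algebraMap K L (P j a))) (u j) C1 := by
      intro j
      have g3 := c3' (finSumFinEquiv (Sum.inl j))
      rw [PPt_inl] at g3
      rw [hu]
      exact g3
    obtain ⟨PL, hPLd⟩ : ∃ PL : Fin s → Fin 2 → L, PL = fun j a => algebraMap K L (P j a) :=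
      ⟨_, rfl⟩
    have hPL' : AlgebraicIndependent ℚ (fun ij : Fin s × Fin 2 => PL ij.1 ij.2) := by
      rw [hPLd]
      exact hPL
    have hordL' : ∀ j, Ord (aff (PL j)) (u j) C1 := by
      rw [hPLd]
      exact hordL
    have hL1 : Module.finrank L ↥(VS (fun j => aff (PL j)) u c) = 1 :=
      CL.neg_one (inj_of_alg hPL') c1 c2 hordL' g1'
    have hK1 : Module.finrank K ↥(VS (fun j => aff (P j)) u c) = 1 :=
      (gen_eq hP hPL' u c).trans hL1
    obtain ⟨f, hf, hf0⟩ := exists_mem (P := P) (w := u) (d := c) (by omega)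
    have hC1m : C1 ∈ VS (fun j => aff (PL j)) u c :=
      (mem_VS _ _ _ _).2 ⟨c2, fun j => (hordL' j).1⟩
    have hfi : Irreducible f := irr_of_special hP hL1 hC1m c1 hf hf0
    exact ⟨f, c, u, hfi, ((mem_VS _ _ _ _).1 hf).1, exact_ord hP hK1 hf hf0, g1', c5', hle⟩

end Pool.Agent.TH167.RD
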