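import Pool.Agent.TH167.RD.Point

set_option autoImplicit false

/-!
# A linear system without reduced members has a multiple fixed component
-/

namespace Pool.Agent.TH167.RD

open MvPolynomial Pool.Agent.TH167.SH Pool.Agent.TH167.TT Pool.Agent.TH167.SM

theorem pd_deg {F : Type} [Field F] [CharZero F] {q : MvPolynomial (Fin 3) F} {e : ℕ}
    (hq0 : q ≠ 0) (hqe : q.IsHomogeneous e) (h : ∀ l, q ∣ pderiv l q) : e = 0 := by
  by_contra he
  have h1 : ∀ l, pderiv l q = 0 := by
    intro l
    by_contra hne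
    have h2 := hqe.pderiv (i := l)
    have h3 := h2.totalDegree hne
    obtain ⟨g, hg⟩ := h l
    have hg0 : g ≠ 0 := fun h0 => hne (by rw [hg, h0, mul_zero])
    have h4 := MvPolynomial.totalDegree_mul_of_isDomain hq0 hg0
    rw [← hg, h3, hqe.totalDegree hq0] at h4
    omega
  have h2 := hqe.sum_X_mul_pderiv
  rw [Finset.sum_eq_zero (fun l _ => by rw [h1, mul_zero]), nsmul_eq_mul] at h2
  rcases mul_eq_zero.1 h2.symm with h3 | h3
  · have : ((e : ℕ) : MvPolynomial (Fin 3) F) ≠ 0 := by
      exact_mod_cast he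
    exact this h3
  · exact hq0 h3

/-- The pencil. -/
theorem pencil {K : Type} [Field K] [CharZero K] {f h : MvPolynomial (Fin 3) K} {d : ℕ}
    (hf : f.IsHomogeneous d) (hf0 : f ≠ 0) (hns : ∀ t : K, ¬ Squarefree (f + C t * h)) :
    ∃ g, Irreducible g ∧ g * g ∣ f ∧ g * g ∣ h := by
  classical
  obtain ⟨f', h', φ, hrel, hff, hhh⟩ := UniqueFactorizationMonoid.exists_reduced_factors f hf0 h
  have hφ0 : φ ≠ 0 := fun h0 => hf0 (by rw [← hff, h0, zero_mul])
  have hf'0 : f' ≠ 0 := fun h0 => hf0 (by rw [← hff, h0, mul_zero])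
  by_cases hφ : Squarefree φ
  · exfalso
    have hf'e := Pool.Agent.Chud.homog_of_dvd hf hf0 (⟨φ, by rw [← hff]; ring⟩ : f' ∣ f)
    -- one of the minors is not zero
    obtain ⟨i, hi⟩ : ∃ i, f' * pderiv i h' - h' * pderiv i f' ≠ 0 := by
      by_contra hcon
      push Not at hcon
      have h1 : ∀ l, f' ∣ pderiv l f' := by
        intro l
        refine IsRelPrime.dvd_of_dvd_mul_left hrel ⟨pderiv l h', ?_⟩
        have := hcon l
        linear_combination -this
      have h2 := pd_deg hf'0 hf'e h1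
      have h3 : IsUnit f' := by
        by_contra hu
        exact not_unit_deg hf'e hf'0 hu h2
      apply hns 0
      rw [C_0, zero_mul, add_zero, ← hff]
      obtain ⟨u, hu⟩ := h3
      have h4 : Associated φ (φ * f') := ⟨u, by rw [hu]⟩
      exact h4.squarefree_iff.1 hφ
    obtain ⟨Z, hZ⟩ : ∃ Z, Z = φ * (f' * pderiv i h' - h' * pderiv i f') * X 0 := ⟨_, rfl⟩
    have hZ0 : Z ≠ 0 := by
      rw [hZ]
      exact mul_ne_zero (mul_ne_zero hφ0 hi) (X_ne_zero 0)
    obtain ⟨s, hs1, hs2⟩ := UniqueFactorizationMonoid.exists_prime_factors Z hZ0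
    have key : ∀ t : K, ∃ p, Irreducible p ∧ p ∣ Z ∧ p ∣ f' + C t * h' := by
      intro t
      by_cases hy : f' + C t * h' = 0
      · refine ⟨X 0, (MvPolynomial.X_prime).irreducible, ?_, by rw [hy]; exact dvd_zero _⟩
        rw [hZ]
        exact dvd_mul_left _ _
      by_cases hr : IsRelPrime φ (f' + C t * h')
      · have h1 : ¬ Squarefree (f' + C t * h') := by
          intro h2
          apply hns t
          have h3 : f + C t * h = φ * (f' + C t * h') := by
            rw [← hff, ← hhh]
            ring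
          rw [h3, squarefree_mul_iff]
          exact ⟨hr, hφ, h2⟩
        unfold Squarefree at h1
        push Not at h1
        obtain ⟨x, hx1, hx2⟩ := h1
        have hx0 : x ≠ 0 := by
          rintro rfl
          rw [zero_mul, zero_dvd_iff] at hx1
          exact hy hx1
        obtain ⟨p, hp, hpx⟩ := WfDvdMonoid.exists_irreducible_factor hx2 hx0
        obtain ⟨c, hc⟩ : p * p ∣ f' + C t * h' := (mul_dvd_mul hpx hpx).trans hx1
        have h4 : p ∣ f' + C t * h' := ⟨p * c, by rw [hc]; ring⟩
        have h5 : p ∣ pderiv i f' + C t * pderiv i h' := by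
          have h6 := congrArg (pderiv i) hc
          rw [map_add, Derivation.leibniz, pderiv_C, smul_zero, add_zero, smul_eq_mul,
            Derivation.leibniz, Derivation.leibniz] at h6
          simp only [smul_eq_mul] at h6
          exact ⟨p * pderiv i c + (c * pderiv i p + c * pderiv i p), by
            rw [h6]
            ring⟩
        refine ⟨p, hp, ?_, h4⟩
        rw [hZ]
        refine Dvd.dvd.mul_right (Dvd.dvd.mul_left ?_ _) _
        have h7 : f' * pderiv i h' - h' * pderiv i f' =
            (f' + C t * h') * pderiv i h' - h' * (pderiv i f' + C t * pderiv i h') := by ring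
        rw [h7]
        exact dvd_sub (h4.mul_right _) (h5.mul_left _)
      · unfold IsRelPrime at hr
        push Not at hr
        obtain ⟨x, hx1, hx2, hx3⟩ := hr
        have hx0 : x ≠ 0 := by
          rintro rfl
          rw [zero_dvd_iff] at hx1
          exact hφ0 hx1
        obtain ⟨p, hp, hpx⟩ := WfDvdMonoid.exists_irreducible_factor hx3 hx0
        refine ⟨p, hp, ?_, hpx.trans hx2⟩
        rw [hZ, mul_assoc]
        exact (hpx.trans hx1).mul_right _
    have key2 : ∀ t : K, ∃ q : {q // q ∈ s.toFinset}, q.1 ∣ f' + C t * h' := by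
      intro t
      obtain ⟨p, hp, hpZ, hpt⟩ := key t
      have h1 : p ∣ s.prod := hpZ.trans hs2.symm.dvd
      obtain ⟨q, hq, hpq⟩ := (hp.prime).exists_mem_multiset_dvd h1
      have h2 : Associated p q := hp.associated_of_dvd (hs1 q hq).irreducible hpq
      exact ⟨⟨q, Multiset.mem_toFinset.2 hq⟩, h2.symm.dvd.trans hpt⟩
    choose Q hQ using key2
    obtain ⟨t, t', hne, heq⟩ := Finite.exists_ne_map_eq_of_infinite Q
    have h1 := hQ t
    have h2 := hQ t'
    rw [← heq] at h2
    have hq : Prime (Q t).1 := hs1 _ (Multiset.mem_toFinset.1 (Q t).2)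
    have h3 : (Q t).1 ∣ C (t - t') * h' := by
      have h4 := dvd_sub h1 h2
      have h5 : f' + C t * h' - (f' + C t' * h') = C (t - t') * h' := by
        rw [C_sub]
        ring
      rwa [h5] at h4
    have hu : IsUnit (C (t - t') : MvPolynomial (Fin 3) K) :=
      (isUnit_iff_ne_zero.2 (sub_ne_zero.2 hne)).map C
    have h4 : (Q t).1 ∣ h' := by
      have h5 := hu.dvd_mul_left (a := (Q t).1) (b := h')
      exact h5.1 h3
    have h5 : (Q t).1 ∣ f' := (dvd_add_left (h4.mul_left _)).1 h1
    exact hq.not_isUnit (hrel h5 h4)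
  · unfold Squarefree at hφ
    push Not at hφ
    obtain ⟨x, hx1, hx2⟩ := hφ
    have hx0 : x ≠ 0 := by
      rintro rfl
      rw [zero_mul, zero_dvd_iff] at hx1
      exact hφ0 hx1
    obtain ⟨p, hp, hpx⟩ := WfDvdMonoid.exists_irreducible_factor hx2 hx0
    have h1 : p * p ∣ φ := (mul_dvd_mul hpx hpx).trans hx1
    refine ⟨p, hp, ?_, ?_⟩
    · rw [← hff]
      exact h1.mul_right _
    · rw [← hhh]
      exact h1.mul_right _

/-- The multiples of a form. -/
noncomputable def mults {K : Type} [Field K] (g : MvPolynomial (Fin 3) K) :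
    Submodule K (MvPolynomial (Fin 3) K) := (Ideal.span {g}).restrictScalars K

theorem mem_mults {K : Type} [Field K] {g f : MvPolynomial (Fin 3) K} :
    f ∈ mults g ↔ g ∣ f := by
  unfold mults
  rw [Submodule.restrictScalars_mem, Ideal.mem_span_singleton]

/-- Bertini's theorem: a linear system without reduced members has a multiple fixed component. -/
theorem bertini {K : Type} [Field K] [CharZero K] {d : ℕ}
    {V : Submodule K (MvPolynomial (Fin 3) K)} (hV : ∀ f ∈ V, f.IsHomogeneous d)
    (hns : ∀ f ∈ V, ¬ Squarefree f) : ∃ g, Irreducible g ∧ ∀ f ∈ V, g ^ 2 ∣ f := by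
  classical
  by_cases hbot : V = ⊥
  · refine ⟨X 0, (MvPolynomial.X_prime).irreducible, fun f hf => ?_⟩
    rw [hbot] at hf
    rw [(Submodule.mem_bot K).1 hf]
    exact dvd_zero _
  obtain ⟨f0, hf0, hne⟩ := (Submodule.ne_bot_iff V).1 hbot
  obtain ⟨s, hs1, hs2⟩ := UniqueFactorizationMonoid.exists_prime_factors f0 hne
  have key : ∀ h ∈ V, ∃ q : {q // q ∈ s.toFinset}, q.1 * q.1 ∣ h := by
    intro h hh
    obtain ⟨p, hp, hp1, hp2⟩ := pencil (hV f0 hf0) hne (h := h) (fun t => by
      refine hns _ (V.add_mem hf0 ?_)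
      have := V.smul_mem t hh
      rwa [smul_eq_C_mul] at this)
    have h1 : p ∣ s.prod := ((Dvd.intro _ rfl).trans hp1).trans hs2.symm.dvd
    obtain ⟨q, hq, hpq⟩ := (hp.prime).exists_mem_multiset_dvd h1
    have h2 : Associated p q := hp.associated_of_dvd (hs1 q hq).irreducible hpq
    exact ⟨⟨q, Multiset.mem_toFinset.2 hq⟩, (mul_dvd_mul h2.symm.dvd h2.symm.dvd).trans hp2⟩
  obtain ⟨q, hq⟩ := Subspace.exists_eq_top_of_iUnion_eq_univ (k := K) (E := ↥V)
    (p := fun q : {q // q ∈ s.toFinset} => (mults (q.1 * q.1)).comap V.subtype) (by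
      rw [Set.eq_univ_iff_forall]
      intro x
      obtain ⟨q, hq⟩ := key x.1 x.2
      exact Set.mem_iUnion.2 ⟨q, mem_mults.2 hq⟩)
  refine ⟨q.1, (hs1 _ (Multiset.mem_toFinset.1 q.2)).irreducible, fun f hf => ?_⟩
  have h1 : (⟨f, hf⟩ : ↥V) ∈ (mults (q.1 * q.1)).comap V.subtype := by
    rw [hq]
    exact Submodule.mem_top
  rw [pow_two]
  exact mem_mults.1 h1

end Pool.Agent.TH167.RD
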