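import Pool.Agent.TH167.RD.Super
import Pool.Agent.TH167.CL.Neg

set_option autoImplicit false

/-!
# Systems of large superabundance have a negative curve as multiple fixed component
-/

namespace Pool.Agent.TH167.RD

open MvPolynomial Pool.Agent.W609 Pool.Agent.W609.CR Pool.Agent.TH167.SH Pool.Agent.TH167.TT
  Pool.Agent.TH167.DD Pool.Agent.TH167.T3 Pool.Agent.H248R5 Pool.Agent.H248R6
  Pool.Agent.W641.CR Pool.Agent.TH167.SM

theorem ip_add {s : ℕ} (d : ℕ) (w : Fin s → ℕ) (a b : ℕ) (u v : Fin s → ℕ) :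
    ip d w (a + b) (fun j => u j + v j) = ip d w a u + ip d w b v := by
  unfold ip
  have h1 : ∑ j, (w j : ℤ) * ((u j + v j : ℕ) : ℤ) =
      ∑ j, (w j : ℤ) * u j + ∑ j, (w j : ℤ) * v j := by
    rw [← Finset.sum_add_distrib]
    refine Finset.sum_congr rfl fun j _ => ?_
    push_cast
    ring
  rw [h1]
  push_cast
  ring

theorem kk_add {s : ℕ} (a b : ℕ) (u v : Fin s → ℕ) :
    kk (a + b) (fun j => u j + v j) = kk a u + kk b v := by
  unfold kk
  have h6 : ∑ j, (((u j + v j : ℕ) : ℤ)) = ∑ j, (u j : ℤ) + ∑ j, (v j : ℤ) := by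
    rw [← Finset.sum_add_distrib]
    refine Finset.sum_congr rfl fun j _ => ?_
    push_cast
    ring
  rw [h6]
  push_cast
  ring

theorem ip_comm' {s : ℕ} (a b : ℕ) (u v : Fin s → ℕ) : ip a u b v = ip b v a u := by
  unfold ip
  rw [mul_comm (a : ℤ)]
  congr 1
  exact Finset.sum_congr rfl fun j _ => mul_comm _ _

/-- Peeling off the components. -/
theorem peel {K : Type} [Field K] [CharZero K] [IsAlgClosed K] {r : ℕ}
    {S : Finset (Fin (r + 4))} (hS : S.card ≤ 9) {P : Fin (r + 4) → Fin 2 → K}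
    (hP : AlgebraicIndependent ℚ (fun ij : Fin (r + 4) × Fin 2 => P ij.1 ij.2))
    {G : MvPolynomial (Fin 3) K} {d : ℕ} {w : Fin (r + 4) → ℕ}
    (hcomp : ∀ (C : MvPolynomial (Fin 3) K) (c : ℕ) (u : Fin (r + 4) → ℕ), Irreducible C →
      C.IsHomogeneous c → (∀ j, Ord (aff (P j)) (u j) C) → C ∣ G → ip c u c u ≤ ip d w c u) :
    ∀ (e : ℕ) (v : Fin (r + 4) → ℕ) (F : MvPolynomial (Fin 3) K), F ∣ G → F ≠ 0 →
      F.IsHomogeneous e → (∀ j, Ord (aff (P j)) (v j) F) →
      0 ≤ ip d w e v + kk e v + 2 * ((∑ j, (if j ∈ S then 0 else v j - 2) : ℕ) : ℤ) := by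
  classical
  intro e
  induction e using Nat.strong_induction_on with
  | _ e ih =>
    intro v F hFG hF0 hFe hord
    by_cases hu : IsUnit F
    · have he : e = 0 := SM.unit_deg hFe hF0 hu
      subst he
      have hv : v = fun _ => 0 := by
        funext j
        have := van_le hF0 hFe (hord j).1
        omega
      have h1 : ip d w 0 v = 0 := by
        unfold ip
        rw [hv]
        simp
      have h2 : kk 0 v = 0 := by
        unfold kk
        rw [hv]
        simp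
      rw [h1, h2]
      have : (0 : ℤ) ≤ ((∑ j, (if j ∈ S then 0 else v j - 2) : ℕ) : ℤ) := Int.natCast_nonneg _
      linarith
    · obtain ⟨C1, hC1, hC1d⟩ := WfDvdMonoid.exists_irreducible_factor hu hF0
      obtain ⟨H, hH⟩ := hC1d
      have hH0 : H ≠ 0 := fun h0 => hF0 (by rw [hH, h0, mul_zero])
      have hC1e := Pool.Agent.Chud.homog_of_dvd hFe hF0 (⟨H, hH⟩ : C1 ∣ F)
      have hHe := Pool.Agent.Chud.homog_of_dvd hFe hF0 (⟨C1, by rw [hH]; ring⟩ : H ∣ F)
      obtain ⟨a, ha⟩ : ∃ a, a = C1.totalDegree := ⟨_, rfl⟩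
      obtain ⟨b, hb⟩ : ∃ b, b = H.totalDegree := ⟨_, rfl⟩
      rw [← ha] at hC1e
      rw [← hb] at hHe
      have ha0 := deg_pos hC1 hC1e
      have hdeg : a + b = e := by
        have h2 := hC1e.mul hHe
        rw [← hH] at h2
        exact h2.inj_right hFe hF0
      choose u hu2 using fun j => exists_ord (p := P j) hC1.ne_zero hC1e
      choose v' hv2 using fun j => exists_ord (p := P j) hH0 hHe
      have hw : v = fun j => u j + v' j := by
        funext j
        have h2 := ord_mul (hu2 j) (hv2 j)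
        rw [← hH] at h2
        exact ord_unique (hord j) h2
      have hCm : C1 ∈ VS (fun j => aff (P j)) u a :=
        (mem_VS _ _ _ _).2 ⟨hC1e, fun j => (hu2 j).1⟩
      have f3 := pos_of_mem hCm hC1.ne_zero
      have b1 := bound9 hS hP hC1 hC1e hu2
      have b2 := ih b (by omega) v' H (Dvd.dvd.trans ⟨C1, by rw [hH]; ring⟩ hFG) hH0 hHe hv2
      have b3 := hcomp C1 a u hC1 hC1e hu2 (Dvd.dvd.trans ⟨H, hH⟩ hFG)
      have b4 := cost_add S u v'
      have b5 := two_chi a u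
      have b6 : (1 : ℤ) ≤ (Module.finrank K ↥(VS (fun j => aff (P j)) u a) : ℤ) := by
        exact_mod_cast f3
      have b8 : ((∑ j, (if j ∈ S then 0 else u j - 2) + ∑ j, (if j ∈ S then 0 else v' j - 2) :
          ℕ) : ℤ) ≤ ((∑ j, (if j ∈ S then 0 else u j + v' j - 2) : ℕ) : ℤ) := by
        exact_mod_cast b4
      rw [Nat.cast_add] at b8
      rw [hw, ← hdeg, ip_add, kk_add]
      linarith

/-- Either the bound, or a component meeting the curve very negatively. -/
theorem rigid_or {K : Type} [Field K] [CharZero K] [IsAlgClosed K] {r : ℕ}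
    {S : Finset (Fin (r + 4))} (hS : S.card ≤ 9) {P : Fin (r + 4) → Fin 2 → K}
    (hP : AlgebraicIndependent ℚ (fun ij : Fin (r + 4) × Fin 2 => P ij.1 ij.2))
    {G : MvPolynomial (Fin 3) K} (hG0 : G ≠ 0) {d : ℕ} {w : Fin (r + 4) → ℕ}
    (hGd : G.IsHomogeneous d) (hord : ∀ j, Ord (aff (P j)) (w j) G) :
    (1 : ℤ) ≤ chi d w + ((∑ j, (if j ∈ S then 0 else w j - 2) : ℕ) : ℤ) ∨
      ∃ (C : MvPolynomial (Fin 3) K) (c : ℕ) (u : Fin (r + 4) → ℕ), Irreducible C ∧
        C.IsHomogeneous c ∧ (∀ j, Ord (aff (P j)) (u j) C) ∧ C ∣ G ∧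
        ip d w c u < ip c u c u := by
  classical
  by_cases hcomp : ∀ (C : MvPolynomial (Fin 3) K) (c : ℕ) (u : Fin (r + 4) → ℕ),
      Irreducible C → C.IsHomogeneous c → (∀ j, Ord (aff (P j)) (u j) C) → C ∣ G →
      ip c u c u ≤ ip d w c u
  · left
    have h1 := peel hS hP hcomp d w G dvd_rfl hG0 hGd hord
    have h2 := two_chi d w
    omega
  · right
    push Not at hcomp
    obtain ⟨C, c, u, h1, h2, h3, h4, h5⟩ := hcomp
    exact ⟨C, c, u, h1, h2, h3, h4, h5⟩

theorem ord_pow {K : Type} [Field K] {p : Fin 2 → K} {m c : ℕ} {f : MvPolynomial (Fin 3) K}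
    (hf : f.IsHomogeneous c) (hf0 : f ≠ 0) (h : Ord (aff p) m f) (n : ℕ) :
    Ord (aff p) (n * m) (f ^ n) := by
  induction n with
  | zero =>
    rw [pow_zero, zero_mul]
    refine ⟨van_zero _ _, fun h1 => ?_⟩
    have h2 := (SH.van_one _ _).1 h1
    rw [map_one] at h2
    exact one_ne_zero h2
  | succ n ih =>
    rw [pow_succ, Nat.succ_mul]
    exact ord_mul ih h

/-- Such a component has negative self-intersection and is a multiple component. -/
theorem neg_comp {K : Type} [Field K] {s : ℕ} {P : Fin s → Fin 2 → K}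
    (hP : Function.Injective P) {G : MvPolynomial (Fin 3) K} (hG0 : G ≠ 0) {d : ℕ}
    {w : Fin s → ℕ} (hGd : G.IsHomogeneous d) (hord : ∀ j, Ord (aff (P j)) (w j) G)
    {C : MvPolynomial (Fin 3) K} {c : ℕ} {u : Fin s → ℕ} (hC : Irreducible C)
    (hCc : C.IsHomogeneous c) (hu : ∀ j, Ord (aff (P j)) (u j) C) (hCG : C ∣ G)
    (hlt : ip d w c u < ip c u c u) : ip c u c u < 0 ∧ ∀ j, 2 * u j ≤ w j := by
  classical
  obtain ⟨n, H, hCH, hH⟩ := WfDvdMonoid.max_power_factor hG0 hC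
  have hn0 : n ≠ 0 := by
    rintro rfl
    rw [pow_zero, one_mul] at hH
    rw [hH] at hCG
    exact hCH hCG
  have hH0 : H ≠ 0 := fun h0 => hG0 (by rw [hH, h0, mul_zero])
  have hHe := Pool.Agent.Chud.homog_of_dvd hGd hG0 (⟨C ^ n, by rw [hH]; ring⟩ : H ∣ G)
  obtain ⟨b, hb⟩ : ∃ b, b = H.totalDegree := ⟨_, rfl⟩
  rw [← hb] at hHe
  have hdeg : c * n + b = d := by
    have h2 := (hCc.pow n).mul hHe
    rw [← hH] at h2
    exact h2.inj_right hGd hG0
  choose v hv using fun j => exists_ord (p := P j) hH0 hHe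
  have hw : ∀ j, w j = n * u j + v j := by
    intro j
    have h2 := ord_mul (ord_pow hCc hC.ne_zero (hu j) n) (hv j)
    rw [← hH] at h2
    exact ord_unique (hord j) h2
  have h1 := bez hP hC hCc (fun j => (hu j).1) hH0 hHe (fun j => (hv j).1) hCH
  have h2 : ip d w c u = n * ip c u c u + ip b v c u := by
    unfold ip
    have h3 : ∑ j, (w j : ℤ) * u j = n * ∑ j, (u j : ℤ) * u j + ∑ j, (v j : ℤ) * u j := by
      rw [Finset.mul_sum, ← Finset.sum_add_distrib]
      refine Finset.sum_congr rfl fun j _ => ?_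
      rw [hw j]
      push_cast
      ring
    rw [h3, ← hdeg]
    push_cast
    ring
  have h3 : 0 ≤ ip b v c u := by
    unfold ip
    have h5 : ((∑ j, u j * v j : ℕ) : ℤ) ≤ ((c * b : ℕ) : ℤ) := by exact_mod_cast h1
    push_cast at h5
    have h6 : ∑ j, (v j : ℤ) * u j = ∑ j, (u j : ℤ) * v j :=
      Finset.sum_congr rfl fun j _ => mul_comm _ _
    rw [h6]
    linarith
  obtain ⟨k, rfl⟩ : ∃ k, n = k + 1 := ⟨n - 1, by omega⟩
  rw [h2] at hlt
  push_cast at hlt
  have h4 : (k : ℤ) * ip c u c u < 0 := by linarith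
  have hk : k ≠ 0 := by
    rintro rfl
    push_cast at h4
    rw [zero_mul] at h4
    exact lt_irrefl _ h4
  have h5 : ip c u c u < 0 := by
    by_contra hcon
    push Not at hcon
    have : (0 : ℤ) ≤ (k : ℤ) * ip c u c u := mul_nonneg (Int.natCast_nonneg _) hcon
    linarith
  refine ⟨h5, fun j => ?_⟩
  have h6 := hw j
  have h7 : 2 * u j ≤ (k + 1) * u j := Nat.mul_le_mul_right _ (by omega)
  omega

/-- The double of a negative curve `C` with `D C < C ^ 2` is a fixed part of `D`. -/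
theorem sq_fixed {K : Type} [Field K] {s : ℕ} {P : Fin s → Fin 2 → K}
    (hP : Function.Injective P) {C : MvPolynomial (Fin 3) K} {c : ℕ} {u : Fin s → ℕ}
    (hC : Irreducible C) (hCc : C.IsHomogeneous c) (hu : ∀ j, Ord (aff (P j)) (u j) C) {d : ℕ}
    {w : Fin s → ℕ} (hneg : ip c u c u < 0) (hlt : ip d w c u < ip c u c u)
    {F : MvPolynomial (Fin 3) K} (hF : F ∈ VS (fun j => aff (P j)) w d) : C ^ 2 ∣ F := by
  classical
  by_cases hF0 : F = 0
  · rw [hF0]
    exact dvd_zero _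
  have hFm := (mem_VS _ _ _ _).1 hF
  have h1 : C ∣ F := by
    by_contra hnd
    have h2 := bez hP hC hCc (fun j => (hu j).1) hF0 hFm.1 hFm.2 hnd
    have h3 : ((∑ j, u j * w j : ℕ) : ℤ) ≤ ((c * d : ℕ) : ℤ) := by exact_mod_cast h2
    have h4 : ∑ j, (w j : ℤ) * u j = ((∑ j, u j * w j : ℕ) : ℤ) := by
      push_cast
      exact Finset.sum_congr rfl fun j _ => mul_comm _ _
    unfold ip at hlt hneg
    rw [h4] at hlt
    push_cast at hlt h3
    linarith
  obtain ⟨H, hH⟩ := h1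
  have hH0 : H ≠ 0 := fun h0 => hF0 (by rw [hH, h0, mul_zero])
  have hHe := Pool.Agent.Chud.homog_of_dvd hFm.1 hF0 (⟨C, by rw [hH]; ring⟩ : H ∣ F)
  obtain ⟨b, hb⟩ : ∃ b, b = H.totalDegree := ⟨_, rfl⟩
  rw [← hb] at hHe
  have hdeg : c + b = d := by
    have h2 := hCc.mul hHe
    rw [← hH] at h2
    exact h2.inj_right hFm.1 hF0
  choose v hv using fun j => exists_ord (p := P j) hH0 hHe
  have hle : ∀ j, w j ≤ u j + v j := by
    intro j
    have h2 := ord_mul (hu j) (hv j)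
    rw [← hH] at h2
    by_contra hcon
    push Not at hcon
    exact h2.2 (van_mono (by omega) (hFm.2 j))
  have h2 : C ∣ H := by
    by_contra hnd
    have h3 := bez hP hC hCc (fun j => (hu j).1) hH0 hHe (fun j => (hv j).1) hnd
    have h4 : ((∑ j, u j * v j : ℕ) : ℤ) ≤ ((c * b : ℕ) : ℤ) := by exact_mod_cast h3
    have h5 : ∑ j, (w j : ℤ) * u j ≤ ∑ j, (u j : ℤ) * u j + ∑ j, (u j : ℤ) * v j := by
      rw [← Finset.sum_add_distrib]
      refine Finset.sum_le_sum fun j _ => ?_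
      have h6 : (w j : ℤ) ≤ u j + v j := by exact_mod_cast hle j
      have h7 : (0 : ℤ) ≤ u j := Int.natCast_nonneg _
      nlinarith
    unfold ip at hlt
    rw [← hdeg] at hlt
    push_cast at hlt h4
    nlinarith
  obtain ⟨q, hq⟩ := h2
  exact ⟨q, by rw [hH, hq]; ring⟩

end Pool.Agent.TH167.RD
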