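import Pool.Agent.TH167.RD.Final
import Pool.Agent.TH167.SH.Conv
import Pool.Agent.TH167.SH.Fam

set_option autoImplicit false

/-!
# The superabundance of arbitrary systems: translations
-/

namespace Pool.Agent.TH167.RD

open MvPolynomial Pool.Agent.W609 Pool.Agent.W609.CR Pool.Agent.TH167.SH

theorem two_ch {n : ℕ} (hn : 0 < n) : 2 * ((n.choose 2 : ℕ) : ℤ) = (n : ℤ) * ((n : ℤ) - 1) := by
  obtain ⟨w, rfl⟩ : ∃ w, n = w + 1 := ⟨n - 1, by omega⟩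
  have h1 := Pool.Agent.H932R7.R4h.two_choose w
  have h2 : ((2 * (w + 1).choose 2 : ℕ) : ℤ) = ((w * (w + 1) : ℕ) : ℤ) := by rw [h1]
  push_cast at h2 ⊢
  linear_combination h2

theorem segre_conv {r : ℕ} {P : Fin (r + 4) → Fin 2 → ℂ}
    (hP : AlgebraicIndependent ℚ (fun ij : Fin (r + 4) × Fin 2 => P ij.1 ij.2)) {d : ℕ}
    {m : Fin (r + 4) → ℕ} (hpos : 0 ≤ SHDefs.dimL P d m) {S : Finset (Fin (r + 4))}
    (hS : S.card ≤ 9) (hlt : SHDefs.virtdim d m +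
      ((∑ i, (if i ∈ S then 0 else m i - 2) : ℕ) : ℤ) < SHDefs.dimL P d m) :
    ∃ (G : MvPolynomial (Fin 3) ℂ) (e : ℕ) (u : Fin (r + 4) → ℕ),
      SHDefs.Curve P G e u ∧ SHDefs.inter e u e u < 0 ∧
      SHDefs.inter d m e u < SHDefs.inter e u e u ∧
      (SHDefs.MinusOne P G e u ∨ 10 ≤ (Finset.univ.filter fun i => 8 ≤ m i).card) ∧
      ∀ f ∈ SHDefs.sys P d m, G ^ 2 ∣ f := by
  classical
  rw [dimL_eq] at hpos hlt
  rw [virtdim_eq] at hlt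
  obtain ⟨H, c, v, h1, h2, h3, h4, h5, h6, h7⟩ := segre_gen hP (d := d) (w := m) (by omega) hS
    (by linarith)
  refine ⟨H, c, v, curve_iff.2 ⟨h1, h2, h3⟩, h4, h5, ?_, ?_⟩
  · rcases h6 with ⟨h8, h9⟩ | h8
    · exact Or.inl (minusOne_iff.2 ⟨h1, h2, h3, self_iff.2 h8, can_iff.2 h9⟩)
    · exact Or.inr h8
  · intro f hf
    rw [sys_eq] at hf
    exact h7 f hf

theorem main_conv {r : ℕ} {P : Fin (r + 4) → Fin 2 → ℂ}
    (hP : AlgebraicIndependent ℚ (fun ij : Fin (r + 4) × Fin 2 => P ij.1 ij.2)) {d : ℕ}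
    {m : Fin (r + 4) → ℕ} (hpos : 0 ≤ SHDefs.dimL P d m) :
    ∃ (d' : ℕ) (m' : Fin (r + 4) → ℕ) (k : ℕ) (G : Fin k → MvPolynomial (Fin 3) ℂ)
      (e : Fin k → ℕ) (u : Fin k → Fin (r + 4) → ℕ) (N : Fin k → ℕ),
      SHDefs.Decomp P d m d' m' G e u N ∧ SHDefs.dimL P d' m' = SHDefs.dimL P d m ∧
      SHDefs.virtdim d' m' = SHDefs.virtdim d m + ∑ a, ((N a).choose 2 : ℤ) ∧
      (∀ (H : MvPolynomial (Fin 3) ℂ) (f : ℕ) (v : Fin (r + 4) → ℕ),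
        SHDefs.MinusOne P H f v → 0 ≤ SHDefs.inter d' m' f v) ∧
      ((∀ S : Finset (Fin (r + 4)), S.card ≤ 9 → SHDefs.dimL P d m ≤
        SHDefs.virtdim d' m' + ((∑ i, (if i ∈ S then 0 else m' i - 2) : ℕ) : ℤ)) ∨
      ∃ (H : MvPolynomial (Fin 3) ℂ) (c : ℕ) (v : Fin (r + 4) → ℕ), SHDefs.Curve P H c v ∧
        SHDefs.inter c v c v < 0 ∧ SHDefs.inter d' m' c v < SHDefs.inter c v c v ∧
        10 ≤ (Finset.univ.filter fun i => 4 ≤ v i).card ∧ (∀ i, 2 * v i ≤ m' i) ∧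
        ∀ f ∈ SHDefs.sys P d m, H ^ 2 ∣ f) := by
  classical
  rw [dimL_eq] at hpos
  obtain ⟨d', w', k, C, e, u, N, hD, hdim, h⟩ := main_gen hP (d := d) (w := m) (by omega)
  have hDcp : Dcp P d m d' w' C e u N := ⟨hD.exc, hD.pos, hD.orth, hD.deg, hD.mul, hD.zero⟩
  refine ⟨d', w', k, C, e, u, N, decomp_iff.2 hDcp, ?_, ?_, ?_, ?_⟩
  · rw [dimL_eq, dimL_eq, hdim]
  · rw [virtdim_eq, virtdim_eq]
    have h1 := hDcp.chi_eq
    have h2 : ∑ a, (N a : ℤ) * ((N a : ℤ) - 1) = 2 * ∑ a, ((N a).choose 2 : ℤ) := by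
      rw [Finset.mul_sum]
      exact Finset.sum_congr rfl fun a _ => (two_ch (hD.pos a)).symm
    rw [h2] at h1
    linarith
  · intro H f v hH
    exact hD.nef H f v (minusOne_iff.1 hH)
  · rcases h with h | ⟨H, c, v, h1, h2, h3, h4, h5, h6, h7, h8⟩
    · left
      intro S hS
      have h1 := h S hS
      rw [dimL_eq, virtdim_eq, ← hdim]
      linarith
    · right
      refine ⟨H, c, v, curve_iff.2 ⟨h1, h2, h3⟩, h4, h5, h6, h7, fun f hf => ?_⟩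
      rw [sys_eq] at hf
      exact h8 f hf

end Pool.Agent.TH167.RD
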