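import Pool.Agent.TH167.RD.Open

set_option autoImplicit false

/-!
# The superabundance of arbitrary systems at general points: translations
-/

namespace Pool.Agent.TH167.RD

open MvPolynomial Pool.Agent.W609 Pool.Agent.W609.CR Pool.Agent.TH167.SH

theorem final_open (r d : ℕ) (m : Fin (r + 4) → ℕ) :
    ∃ Q : MvPolynomial (Fin (r + 4) × Fin 2) ℂ, Q ≠ 0 ∧
      ∀ P : Fin (r + 4) → Fin 2 → ℂ,
        MvPolynomial.eval (fun ij : Fin (r + 4) × Fin 2 => P ij.1 ij.2) Q ≠ 0 →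
        0 ≤ SHDefs.dimL P d m →
        (∀ S : Finset (Fin (r + 4)), S.card ≤ 9 →
          SHDefs.virtdim d m + ((∑ i, (if i ∈ S then 0 else m i - 2) : ℕ) : ℤ) <
            SHDefs.dimL P d m →
          ∃ (G : MvPolynomial (Fin 3) ℂ) (e : ℕ) (u : Fin (r + 4) → ℕ),
            SHDefs.Curve P G e u ∧ SHDefs.inter e u e u < 0 ∧
            SHDefs.inter d m e u < SHDefs.inter e u e u ∧
            (SHDefs.MinusOne P G e u ∨ 10 ≤ (Finset.univ.filter fun i => 8 ≤ m i).card) ∧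
            ∀ f ∈ SHDefs.sys P d m, G ^ 2 ∣ f) ∧
        ∃ (d' : ℕ) (m' : Fin (r + 4) → ℕ) (k : ℕ) (G : Fin k → MvPolynomial (Fin 3) ℂ)
          (e : Fin k → ℕ) (u : Fin k → Fin (r + 4) → ℕ) (N : Fin k → ℕ),
          SHDefs.Decomp P d m d' m' G e u N ∧ SHDefs.dimL P d' m' = SHDefs.dimL P d m ∧
          SHDefs.virtdim d' m' = SHDefs.virtdim d m + ∑ a, ((N a).choose 2 : ℤ) ∧
          (∀ (H : MvPolynomial (Fin 3) ℂ) (f : ℕ) (v : Fin (r + 4) → ℕ),
            SHDefs.MinusOne P H f v → 0 ≤ SHDefs.inter d' m' f v) ∧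
          ((∀ S : Finset (Fin (r + 4)), S.card ≤ 9 → SHDefs.dimL P d m ≤
            SHDefs.virtdim d' m' + ((∑ i, (if i ∈ S then 0 else m' i - 2) : ℕ) : ℤ)) ∨
          ∃ (H : MvPolynomial (Fin 3) ℂ) (c : ℕ) (v : Fin (r + 4) → ℕ), SHDefs.Curve P H c v ∧
            SHDefs.inter c v c v < 0 ∧ SHDefs.inter d' m' c v < SHDefs.inter c v c v ∧
            10 ≤ (Finset.univ.filter fun i => 4 ≤ v i).card ∧ (∀ i, 2 * v i ≤ m' i) ∧
            ∀ f ∈ SHDefs.sys P d m, H ^ 2 ∣ f) := by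
  classical
  obtain ⟨F1, hF1, h1⟩ := segre_open d m
  obtain ⟨F2, hF2, h2⟩ := main_open d m
  refine ⟨(F1 * F2).map (algebraMap ℚ ℂ), map_ne (mul_ne_zero hF1 hF2), fun P hP hpos => ?_⟩
  rw [evP_eval, map_mul] at hP
  have g1 := h1 ℂ P (left_ne_zero_of_mul hP)
  have g2 := h2 ℂ P (right_ne_zero_of_mul hP)
  rw [dimL_eq] at hpos
  have hpos' : 0 < Module.finrank ℂ ↥(VS (fun j => aff (P j)) m d) := by omega
  refine ⟨fun S hS hlt => ?_, ?_⟩
  · rw [dimL_eq, virtdim_eq] at hlt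
    obtain ⟨H, c, v, k1, k2, k3, k4, k5, k6, k7⟩ := g1 hpos' S hS (by linarith)
    refine ⟨H, c, v, curve_iff.2 ⟨k1, k2, k3⟩, k4, k5, ?_, ?_⟩
    · rcases k6 with ⟨h8, h9⟩ | h8
      · exact Or.inl (minusOne_iff.2 ⟨k1, k2, k3, self_iff.2 h8, can_iff.2 h9⟩)
      · exact Or.inr h8
    · intro f hf
      rw [sys_eq] at hf
      exact k7 f hf
  · obtain ⟨d', w', k, C, e, u, N, hD, hdim, h⟩ := g2 hpos'
    have hDcp : Dcp P d m d' w' C e u N := ⟨hD.exc, hD.pos, hD.orth, hD.deg, hD.mul, hD.zero⟩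
    refine ⟨d', w', k, C, e, u, N, decomp_iff.2 hDcp, ?_, ?_, ?_, ?_⟩
    · rw [dimL_eq, dimL_eq, hdim]
    · rw [virtdim_eq, virtdim_eq]
      have h1 := hDcp.chi_eq
      have h2 : ∑ a, (N a : ℤ) * ((N a : ℤ) - 1) = 2 * ∑ a, ((N a).choose 2 : ℤ) := by
        rw [Finset.mul_sum]
        exact Finset.sum_congr rfl fun a _ => (two_ch (hD.pos a)).symm
      rw [h2] at h1
      linarith
    · intro H f v hH
      exact hD.nef H f v (minusOne_iff.1 hH)
    · rcases h with h | ⟨H, c, v, h1, h2, h3, h4, h5, h6, h7, h8⟩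
      · left
        intro S hS
        have h1 := h S hS
        rw [dimL_eq, virtdim_eq, ← hdim]
        linarith
      · right
        refine ⟨H, c, v, curve_iff.2 ⟨h1, h2, h3⟩, h4, h5, h6, h7, fun f hf => ?_⟩
        rw [sys_eq] at hf
        exact h8 f hf

end Pool.Agent.TH167.RD
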