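import Pool.Agent.TH167.RD.Alt
import Pool.Agent.TH167.TT.HH9

set_option autoImplicit false

/-!
# The superabundance of arbitrary systems: the final statements at generic points
-/

namespace Pool.Agent.TH167.RD

open MvPolynomial Pool.Agent.W609 Pool.Agent.W609.CR Pool.Agent.TH167.SH Pool.Agent.TH167.TT
  Pool.Agent.TH167.DD Pool.Agent.TH167.T3 Pool.Agent.TH167.SM

/-- The decomposition of an arbitrary system at generic points. -/
theorem main_gen {K : Type} [Field K] [CharZero K] [IsAlgClosed K] {r : ℕ}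
    {P : Fin (r + 4) → Fin 2 → K}
    (hP : AlgebraicIndependent ℚ (fun ij : Fin (r + 4) × Fin 2 => P ij.1 ij.2)) {d : ℕ}
    {w : Fin (r + 4) → ℕ} (hpos : 0 < Module.finrank K ↥(VS (fun j => aff (P j)) w d)) :
    ∃ (d' : ℕ) (w' : Fin (r + 4) → ℕ) (k : ℕ) (C : Fin k → MvPolynomial (Fin 3) K)
      (e : Fin k → ℕ) (u : Fin k → Fin (r + 4) → ℕ) (N : Fin k → ℕ),
      Dec P d w d' w' C e u N ∧
      Module.finrank K ↥(VS (fun j => aff (P j)) w' d') =
        Module.finrank K ↥(VS (fun j => aff (P j)) w d) ∧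
      ((∀ S : Finset (Fin (r + 4)), S.card ≤ 9 →
        (Module.finrank K ↥(VS (fun j => aff (P j)) w' d') : ℤ) ≤
          chi d' w' + ((∑ j, (if j ∈ S then 0 else w' j - 2) : ℕ) : ℤ)) ∨
      ∃ (H : MvPolynomial (Fin 3) K) (c : ℕ) (v : Fin (r + 4) → ℕ), Irreducible H ∧
        H.IsHomogeneous c ∧ (∀ j, Ord (aff (P j)) (v j) H) ∧ ip c v c v < 0 ∧
        ip d' w' c v < ip c v c v ∧ 10 ≤ (Finset.univ.filter fun j => 4 ≤ v j).card ∧
        (∀ j, 2 * v j ≤ w' j) ∧ ∀ f ∈ VS (fun j => aff (P j)) w d, H ^ 2 ∣ f) := by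
  classical
  obtain ⟨d', w', k, C, e, u, N, hD, hdim, -⟩ := main2 d P hP w hpos
  refine ⟨d', w', k, C, e, u, N, hD, hdim, ?_⟩
  by_cases hall : ∀ S : Finset (Fin (r + 4)), S.card ≤ 9 →
      (Module.finrank K ↥(VS (fun j => aff (P j)) w' d') : ℤ) ≤
        chi d' w' + ((∑ j, (if j ∈ S then 0 else w' j - 2) : ℕ) : ℤ)
  · exact Or.inl hall
  · right
    push Not at hall
    obtain ⟨S, hS, hlt⟩ := hall
    rcases alt hP (w := w') (d := d') (by omega) hS with h1 | ⟨H, c, v, h1, h2, h3, h4, h5, h6⟩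
    · exact absurd hlt (not_lt.2 h1)
    · refine ⟨H, c, v, h1, h2, h3, h4, h5, ?_, h6, ?_⟩
      · by_contra hcon
        have h7 := neg9 (w := v) (by
          have : (Finset.univ.filter fun j => 4 ≤ v j).card ≤ 9 := by omega
          exact this) hP h1 h2 h3 h4
        have h8 := hD.nef H c v ⟨h1, h2, h3, self_iff.2 h7.1, can_iff.2 h7.2⟩
        omega
      · intro f hf
        have hDcp : Dcp P d w d' w' C e u N :=
          ⟨hD.exc, hD.pos, hD.orth, hD.deg, hD.mul, hD.zero⟩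
        have hfin := vs_fin (fun j => aff (P j)) w d
        have h7 := Submodule.eq_of_le_of_finrank_eq hDcp.map_le
          (by rw [hDcp.map_finrank, hdim])
        rw [← h7] at hf
        obtain ⟨g, hg, rfl⟩ := hf
        have h8 := sq_fixed (inj_of_alg hP) h1 h2 h3 h4 h5 (F := g) hg
        rw [LinearMap.mulLeft_apply]
        exact h8.mul_left _

/-- Segre's conjecture for systems of large superabundance at generic points. -/
theorem segre_gen {K : Type} [Field K] [CharZero K] [IsAlgClosed K] {r : ℕ}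
    {P : Fin (r + 4) → Fin 2 → K}
    (hP : AlgebraicIndependent ℚ (fun ij : Fin (r + 4) × Fin 2 => P ij.1 ij.2)) {d : ℕ}
    {w : Fin (r + 4) → ℕ} (hpos : 0 < Module.finrank K ↥(VS (fun j => aff (P j)) w d))
    {S : Finset (Fin (r + 4))} (hS : S.card ≤ 9)
    (hlt : chi d w + ((∑ j, (if j ∈ S then 0 else w j - 2) : ℕ) : ℤ) <
      (Module.finrank K ↥(VS (fun j => aff (P j)) w d) : ℤ)) :
    ∃ (H : MvPolynomial (Fin 3) K) (c : ℕ) (v : Fin (r + 4) → ℕ), Irreducible H ∧
      H.IsHomogeneous c ∧ (∀ j, Ord (aff (P j)) (v j) H) ∧ ip c v c v < 0 ∧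
      ip d w c v < ip c v c v ∧
      ((ip c v c v = -1 ∧ kk c v = 1) ∨ 10 ≤ (Finset.univ.filter fun j => 8 ≤ w j).card) ∧
      ∀ f ∈ VS (fun j => aff (P j)) w d, H ^ 2 ∣ f := by
  classical
  rcases alt hP hpos hS with h1 | ⟨H, c, v, h1, h2, h3, h4, h5, h6⟩
  · exact absurd hlt (not_lt.2 h1)
  · refine ⟨H, c, v, h1, h2, h3, h4, h5, ?_, fun f hf =>
      sq_fixed (inj_of_alg hP) h1 h2 h3 h4 h5 hf⟩
    by_cases h9 : (Finset.univ.filter fun j => 3 < v j).card ≤ 9
    · exact Or.inl (neg9 h9 hP h1 h2 h3 h4)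
    · right
      have h10 : (Finset.univ.filter fun j => 3 < v j).card ≤
          (Finset.univ.filter fun j => 8 ≤ w j).card := by
        refine Finset.card_le_card fun j hj => ?_
        rw [Finset.mem_filter] at hj ⊢
        have := h6 j
        exact ⟨hj.1, by omega⟩
      omega

end Pool.Agent.TH167.RD
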