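import Pool.Agent.TH167.RD.Conv
import Pool.Agent.TH167.TT.Conv9

set_option autoImplicit false

/-!
# The superabundance of arbitrary systems: general points
-/

namespace Pool.Agent.TH167.RD

open MvPolynomial Pool.Agent.W609 Pool.Agent.W609.CR Pool.Agent.TH167.SH Pool.Agent.TH167.TT
  Pool.Agent.TH167.DD Pool.Agent.TH167.T3 Pool.Agent.TH167.SM

/-- A rigid prime divisor at generic points spreads out. -/
theorem irr_open {s : ℕ} {c : ℕ} {v : Fin s → ℕ} {K0 : Type} [Field K0] [CharZero K0]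
    {P0 : Fin s → Fin 2 → K0}
    (hP0 : AlgebraicIndependent ℚ (fun ij : Fin s × Fin 2 => P0 ij.1 ij.2))
    {H0 : MvPolynomial (Fin 3) K0} (hirr : Irreducible H0) (hH0c : H0.IsHomogeneous c)
    (hord0 : ∀ j, Ord (aff (P0 j)) (v j) H0)
    (h1 : Module.finrank K0 ↥(VS (fun j => aff (P0 j)) v c) = 1) :
    ∃ F : MvPolynomial (Fin s × Fin 2) ℚ, F ≠ 0 ∧
      ∀ (K : Type) [Field K] [CharZero K] (P : Fin s → Fin 2 → K), evP P F ≠ 0 →
        ∃ H : MvPolynomial (Fin 3) K, Irreducible H ∧ H.IsHomogeneous c ∧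
          ∀ j, Ord (aff (P j)) (v j) H := by
  classical
  choose OD hOD0 hOD using fun (x : Fin s → ℕ) (a : ℕ) => open_dim x a
  have hc0 := deg_pos hirr hH0c
  have hH0m : H0 ∈ VS (fun j => aff (P0 j)) v c := (mem_VS _ _ _ _).2 ⟨hH0c, fun j => (hord0 j).1⟩
  have hline : ∀ g ∈ VS (fun j => aff (P0 j)) v c, ∃ t : K0, t • H0 = g := by
    intro g hg
    obtain ⟨t, ht⟩ := (finrank_eq_one_iff_of_nonzero' (⟨H0, hH0m⟩ :
      ↥(VS (fun j => aff (P0 j)) v c)) (fun h => hirr.ne_zero (congrArg Subtype.val h))).1 h1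
      ⟨g, hg⟩
    exact ⟨t, congrArg Subtype.val ht⟩
  refine ⟨OD v c * (∏ j, OD (Function.update v j (v j + 1)) c) *
    ∏ q : Fin (c + 1) × (Fin s → Fin (c + 1)), OD (fun j => (q.2 j).1) q.1.1,
    mul_ne_zero (mul_ne_zero (hOD0 _ _) (Finset.prod_ne_zero_iff.2 fun _ _ => hOD0 _ _))
      (Finset.prod_ne_zero_iff.2 fun _ _ => hOD0 _ _), ?_⟩
  intro K _ _ P hP
  have hmul : ∀ A B : MvPolynomial (Fin s × Fin 2) ℚ, evP P (A * B) = evP P A * evP P B :=
    fun A B => map_mul _ A B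
  rw [hmul, hmul] at hP
  have p1 := left_ne_zero_of_mul (left_ne_zero_of_mul hP)
  have p2 : ∀ j, evP P (OD (Function.update v j (v j + 1)) c) ≠ 0 := by
    intro j h0
    apply right_ne_zero_of_mul (left_ne_zero_of_mul hP)
    show aeval _ (∏ j, OD (Function.update v j (v j + 1)) c) = 0
    rw [map_prod]
    exact Finset.prod_eq_zero (Finset.mem_univ j) h0
  have p3 : ∀ (a : ℕ) (x : Fin s → ℕ), a ≤ c → (∀ j, x j ≤ c) → evP P (OD x a) ≠ 0 := by
    intro a x ha hx h0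
    apply right_ne_zero_of_mul hP
    show aeval _ (∏ q : Fin (c + 1) × (Fin s → Fin (c + 1)), OD (fun j => (q.2 j).1) q.1.1) = 0
    rw [map_prod]
    exact Finset.prod_eq_zero (Finset.mem_univ ((⟨a, by omega⟩ : Fin (c + 1)),
      fun j => (⟨x j, by have := hx j; omega⟩ : Fin (c + 1)))) h0
  have d1 := hOD v c K P p1 K0 P0 hP0
  obtain ⟨H, hH, hHn⟩ := exists_mem (P := P) (w := v) (d := c) (by omega)
  have hHm := (mem_VS _ _ _ _).1 hH
  refine ⟨H, ⟨fun hu => ?_, ?_⟩, hHm.1, fun j => ⟨hHm.2 j, fun hvan => ?_⟩⟩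
  · have := unit_deg hHm.1 hHn hu
    omega
  · intro x h hh
    by_contra hcon
    push Not at hcon
    obtain ⟨hxu, hhu⟩ := hcon
    have hx0 : x ≠ 0 := fun h0 => hHn (by rw [hh, h0, zero_mul])
    have hh0 : h ≠ 0 := fun h0 => hHn (by rw [hh, h0, mul_zero])
    have hxe := Pool.Agent.Chud.homog_of_dvd hHm.1 hHn (⟨h, hh⟩ : x ∣ H)
    have hhe := Pool.Agent.Chud.homog_of_dvd hHm.1 hHn (⟨x, by rw [hh]; ring⟩ : h ∣ H)
    obtain ⟨a, ha⟩ : ∃ a, a = x.totalDegree := ⟨_, rfl⟩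
    obtain ⟨b, hb⟩ : ∃ b, b = h.totalDegree := ⟨_, rfl⟩
    rw [← ha] at hxe
    rw [← hb] at hhe
    have ha0 := not_unit_deg hxe hx0 hxu
    have hb0 := not_unit_deg hhe hh0 hhu
    choose u hu using fun j => exists_ord (p := P j) hx0 hxe
    choose o ho using fun j => exists_ord (p := P j) hh0 hhe
    have hdeg : a + b = c := by
      have h2 := hxe.mul hhe
      rw [← hh] at h2
      exact h2.inj_right hHm.1 hHn
    have hle : ∀ j, v j ≤ u j + o j := by
      intro j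
      have h2 := ord_mul (hu j) (ho j)
      rw [← hh] at h2
      by_contra hcon
      push Not at hcon
      exact h2.2 (van_mono (by omega) (hHm.2 j))
    have hxm : x ∈ VS (fun j => aff (P j)) u a := (mem_VS _ _ _ _).2 ⟨hxe, fun j => (hu j).1⟩
    have hhm : h ∈ VS (fun j => aff (P j)) o b := (mem_VS _ _ _ _).2 ⟨hhe, fun j => (ho j).1⟩
    have q1 := hOD u a K P (p3 a u (by omega) fun j => by
      have := van_le hx0 hxe (hu j).1
      omega) K0 P0 hP0
    have q2 := hOD o b K P (p3 b o (by omega) fun j => by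
      have := van_le hh0 hhe (ho j).1
      omega) K0 P0 hP0
    have q3 := pos_of_mem hxm hx0
    have q4 := pos_of_mem hhm hh0
    obtain ⟨y, hy, hy0⟩ := exists_mem (P := P0) (w := u) (d := a) (by omega)
    obtain ⟨z, hz, hz0⟩ := exists_mem (P := P0) (w := o) (d := b) (by omega)
    have hyz : y * z ∈ VS (fun j => aff (P0 j)) v c := by
      rw [mem_VS] at hy hz ⊢
      refine ⟨?_, fun j => ?_⟩
      · rw [← hdeg]
        exact hy.1.mul hz.1
      · exact van_mono (hle j) (van_mul (hy.2 j) (hz.2 j))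
    have hyz0 : y * z ≠ 0 := mul_ne_zero hy0 hz0
    obtain ⟨t, ht⟩ := hline _ hyz
    have ht0 : t ≠ 0 := by
      rintro rfl
      rw [zero_smul] at ht
      exact hyz0 ht.symm
    have hGe : H0 = (C t⁻¹ * y) * z := by
      have : H0 = C t⁻¹ * (t • H0) := by
        rw [smul_eq_C_mul, ← mul_assoc, ← C_mul, inv_mul_cancel₀ ht0, C_1, one_mul]
      rw [this, ht]
      ring
    rcases hirr.isUnit_or_isUnit hGe with h2 | h2
    · exact ha0 (unit_deg ((mem_VS _ _ _ _).1 hy).1 hy0 (isUnit_of_mul_isUnit_right h2))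
    · exact hb0 (unit_deg ((mem_VS _ _ _ _).1 hz).1 hz0 h2)
  · have hHm2 : H ∈ VS (fun j => aff (P j)) (Function.update v j (v j + 1)) c := by
      rw [mem_VS]
      refine ⟨hHm.1, fun i => ?_⟩
      by_cases hij : i = j
      · subst hij
        rw [Function.update_self]
        exact hvan
      · rw [Function.update_of_ne hij]
        exact hHm.2 i
    have q1 := hOD (Function.update v j (v j + 1)) c K P (p2 j) K0 P0 hP0
    have q3 := pos_of_mem hHm2 hHn
    obtain ⟨y, hy, hy0⟩ := exists_mem (P := P0) (w := Function.update v j (v j + 1)) (d := c)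
      (by omega)
    have hym := (mem_VS _ _ _ _).1 hy
    have hy2 : y ∈ VS (fun j => aff (P0 j)) v c := by
      rw [mem_VS]
      refine ⟨hym.1, fun i => van_mono ?_ (hym.2 i)⟩
      by_cases hij : i = j
      · subst hij
        rw [Function.update_self]
        omega
      · rw [Function.update_of_ne hij]
    obtain ⟨t, ht⟩ := hline _ hy2
    have ht0 : t ≠ 0 := by
      rintro rfl
      rw [zero_smul] at ht
      exact hy0 ht.symm
    have hyj := hym.2 j
    rw [Function.update_self, ← ht] at hyj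
    apply (hord0 j).2
    have : H0 = t⁻¹ • (t • H0) := by
      rw [smul_smul, inv_mul_cancel₀ ht0, one_smul]
    rw [this]
    unfold Van at hyj ⊢
    have h5 := Ideal.mul_mem_left _ (C t⁻¹ : MvPolynomial (Fin 3) K0) hyj
    rw [← smul_eq_C_mul] at h5
    exact h5

/-- Segre's conjecture for systems of large superabundance at general points. -/
theorem segre_open {r : ℕ} (d : ℕ) (w : Fin (r + 4) → ℕ) :
    ∃ F : MvPolynomial (Fin (r + 4) × Fin 2) ℚ, F ≠ 0 ∧
      ∀ (K : Type) [Field K] [CharZero K] (P : Fin (r + 4) → Fin 2 → K), evP P F ≠ 0 →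
        0 < Module.finrank K ↥(VS (fun j => aff (P j)) w d) →
        ∀ S : Finset (Fin (r + 4)), S.card ≤ 9 →
          chi d w + ((∑ j, (if j ∈ S then 0 else w j - 2) : ℕ) : ℤ) <
            (Module.finrank K ↥(VS (fun j => aff (P j)) w d) : ℤ) →
          ∃ (H : MvPolynomial (Fin 3) K) (c : ℕ) (v : Fin (r + 4) → ℕ), Irreducible H ∧
            H.IsHomogeneous c ∧ (∀ j, Ord (aff (P j)) (v j) H) ∧ ip c v c v < 0 ∧
            ip d w c v < ip c v c v ∧
            ((ip c v c v = -1 ∧ kk c v = 1) ∨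
              10 ≤ (Finset.univ.filter fun j => 8 ≤ w j).card) ∧
            ∀ f ∈ VS (fun j => aff (P j)) w d, H ^ 2 ∣ f := by
  classical
  obtain ⟨K0, i1, i2, i3, P0, hP0⟩ := exists_closed (r + 4)
  obtain ⟨Fd, hFd0, hFd⟩ := open_dim w d
  obtain ⟨Fi, hFi0, hFi⟩ := inj_fam (r + 4)
  have key : ∀ S : Finset (Fin (r + 4)), ∃ F : MvPolynomial (Fin (r + 4) × Fin 2) ℚ, F ≠ 0 ∧
      ∀ (K : Type) [Field K] [CharZero K] (P : Fin (r + 4) → Fin 2 → K), evP P Fd ≠ 0 →
        Function.Injective P → evP P F ≠ 0 →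
        0 < Module.finrank K ↥(VS (fun j => aff (P j)) w d) → S.card ≤ 9 →
          chi d w + ((∑ j, (if j ∈ S then 0 else w j - 2) : ℕ) : ℤ) <
            (Module.finrank K ↥(VS (fun j => aff (P j)) w d) : ℤ) →
          ∃ (H : MvPolynomial (Fin 3) K) (c : ℕ) (v : Fin (r + 4) → ℕ), Irreducible H ∧
            H.IsHomogeneous c ∧ (∀ j, Ord (aff (P j)) (v j) H) ∧ ip c v c v < 0 ∧
            ip d w c v < ip c v c v ∧
            ((ip c v c v = -1 ∧ kk c v = 1) ∨
              10 ≤ (Finset.univ.filter fun j => 8 ≤ w j).card) ∧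
            ∀ f ∈ VS (fun j => aff (P j)) w d, H ^ 2 ∣ f := by
    intro S
    by_cases hcase : 0 < Module.finrank K0 ↥(VS (fun j => aff (P0 j)) w d) ∧ S.card ≤ 9 ∧
        chi d w + ((∑ j, (if j ∈ S then 0 else w j - 2) : ℕ) : ℤ) <
          (Module.finrank K0 ↥(VS (fun j => aff (P0 j)) w d) : ℤ)
    · obtain ⟨H0, c, v, h1, h2, h3, h4, h5, h6, -⟩ := segre_gen hP0 hcase.1 hcase.2.1 hcase.2.2
      obtain ⟨F, hF0, hF⟩ := irr_open hP0 h1 h2 h3
        (CL.neg_one (inj_of_alg hP0) h1 h2 h3 h4)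
      refine ⟨F, hF0, fun K _ _ P _ hinj hP _ _ _ => ?_⟩
      obtain ⟨H, g1, g2, g3⟩ := hF K P hP
      exact ⟨H, c, v, g1, g2, g3, h4, h5, h6, fun f hf => sq_fixed hinj g1 g2 g3 h4 h5 hf⟩
    · refine ⟨1, one_ne_zero, fun K _ _ P hd _ _ hpos hS hlt => ?_⟩
      exfalso
      have h1 := hFd K P hd K0 P0 hP0
      apply hcase
      rw [h1] at hpos hlt
      exact ⟨hpos, hS, hlt⟩
  choose FS hFS0 hFS using key
  refine ⟨Fd * Fi * ∏ S, FS S, mul_ne_zero (mul_ne_zero hFd0 hFi0)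
    (Finset.prod_ne_zero_iff.2 fun _ _ => hFS0 _), ?_⟩
  intro K _ _ P hP hpos S hS hlt
  rw [map_mul, map_mul, map_prod] at hP
  exact hFS S K P (left_ne_zero_of_mul (left_ne_zero_of_mul hP))
    (hFi K P (right_ne_zero_of_mul (left_ne_zero_of_mul hP)))
    (Finset.prod_ne_zero_iff.1 (right_ne_zero_of_mul hP) S (Finset.mem_univ S)) hpos hS hlt

/-- An exceptional curve at special points comes from an exceptional curve at generic points. -/
theorem exc_gen {K : Type} [Field K] [CharZero K] {s : ℕ} {P : Fin s → Fin 2 → K}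
    (hinj : Function.Injective P) {H : MvPolynomial (Fin 3) K} {f : ℕ} {v : Fin s → ℕ}
    (hH : Exc P H f v) {K0 : Type} [Field K0] [CharZero K0] {P0 : Fin s → Fin 2 → K0}
    (hP0 : AlgebraicIndependent ℚ (fun ij : Fin s × Fin 2 => P0 ij.1 ij.2)) :
    ∃ H0, Exc P0 H0 f v := by
  have h1 := CL.neg_one hinj hH.irr hH.hom hH.ord (by rw [self_iff.1 hH.self]; norm_num)
  have h2 := semi hP0 P v f
  have h3 := chi_le_dim P0 f v
  have h4 := two_chi f v
  rw [self_iff.1 hH.self, can_iff.1 hH.can] at h4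
  have h5 : Module.finrank K0 ↥(VS (fun j => aff (P0 j)) v f) = 1 := by omega
  obtain ⟨g, hg, hg0⟩ := exists_mem (P := P0) (w := v) (d := f) (by omega)
  have hm : H ∈ VS (fun j => aff (P j)) v f := (mem_VS _ _ _ _).2 ⟨hH.hom, fun j => (hH.ord j).1⟩
  exact ⟨g, irr_of_special hP0 h1 hm hH.irr hg hg0, ((mem_VS _ _ _ _).1 hg).1,
    exact_ord hP0 h5 hg hg0, hH.self, hH.can⟩

/-- The decomposition of an arbitrary system at general points. -/
theorem main_open {r : ℕ} (d : ℕ) (w : Fin (r + 4) → ℕ) :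
    ∃ F : MvPolynomial (Fin (r + 4) × Fin 2) ℚ, F ≠ 0 ∧
      ∀ (K : Type) [Field K] [CharZero K] (P : Fin (r + 4) → Fin 2 → K), evP P F ≠ 0 →
        0 < Module.finrank K ↥(VS (fun j => aff (P j)) w d) →
        ∃ (d' : ℕ) (w' : Fin (r + 4) → ℕ) (k : ℕ) (C : Fin k → MvPolynomial (Fin 3) K)
          (e : Fin k → ℕ) (u : Fin k → Fin (r + 4) → ℕ) (N : Fin k → ℕ),
          Dec P d w d' w' C e u N ∧
          Module.finrank K ↥(VS (fun j => aff (P j)) w' d') =
            Module.finrank K ↥(VS (fun j => aff (P j)) w d) ∧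
          ((∀ S : Finset (Fin (r + 4)), S.card ≤ 9 →
            (Module.finrank K ↥(VS (fun j => aff (P j)) w' d') : ℤ) ≤
              chi d' w' + ((∑ j, (if j ∈ S then 0 else w' j - 2) : ℕ) : ℤ)) ∨
          ∃ (H : MvPolynomial (Fin 3) K) (c : ℕ) (v : Fin (r + 4) → ℕ), Irreducible H ∧
            H.IsHomogeneous c ∧ (∀ j, Ord (aff (P j)) (v j) H) ∧ ip c v c v < 0 ∧
            ip d' w' c v < ip c v c v ∧ 10 ≤ (Finset.univ.filter fun j => 4 ≤ v j).card ∧
            (∀ j, 2 * v j ≤ w' j) ∧ ∀ f ∈ VS (fun j => aff (P j)) w d, H ^ 2 ∣ f) := by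
  classical
  obtain ⟨K0, i1, i2, i3, P0, hP0⟩ := exists_closed (r + 4)
  obtain ⟨Fd, hFd0, hFd⟩ := open_dim w d
  rcases Nat.eq_zero_or_pos (Module.finrank K0 ↥(VS (fun j => aff (P0 j)) w d)) with h0 | h0
  · refine ⟨Fd, hFd0, fun K _ _ P hP hpos => ?_⟩
    have := hFd K P hP K0 P0 hP0
    omega
  obtain ⟨d', w', k, C0, e, u, N, hD, hdim, halt⟩ := main_gen hP0 h0
  obtain ⟨Fd', hFd0', hFd'⟩ := open_dim w' d'
  obtain ⟨Fi, hFi0, hFi⟩ := inj_fam (r + 4)
  have hspr := fun a => exc_spread (e a) (u a) ⟨K0, i1, i2, P0, C0 a, hP0, hD.exc a⟩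
  choose Fa hFa hFa' using hspr
  -- the second alternative
  obtain ⟨Fb, hFb0, hFb⟩ : ∃ Fb : MvPolynomial (Fin (r + 4) × Fin 2) ℚ, Fb ≠ 0 ∧
      ∀ (K : Type) [Field K] [CharZero K] (P : Fin (r + 4) → Fin 2 → K), evP P Fb ≠ 0 →
        Function.Injective P →
        (Module.finrank K ↥(VS (fun j => aff (P j)) w' d') =
          Module.finrank K0 ↥(VS (fun j => aff (P0 j)) w' d')) →
        ((∀ S : Finset (Fin (r + 4)), S.card ≤ 9 →
            (Module.finrank K ↥(VS (fun j => aff (P j)) w' d') : ℤ) ≤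
              chi d' w' + ((∑ j, (if j ∈ S then 0 else w' j - 2) : ℕ) : ℤ)) ∨
          ∃ (H : MvPolynomial (Fin 3) K) (c : ℕ) (v : Fin (r + 4) → ℕ), Irreducible H ∧
            H.IsHomogeneous c ∧ (∀ j, Ord (aff (P j)) (v j) H) ∧ ip c v c v < 0 ∧
            ip d' w' c v < ip c v c v ∧ 10 ≤ (Finset.univ.filter fun j => 4 ≤ v j).card ∧
            (∀ j, 2 * v j ≤ w' j) ∧ ∀ f ∈ VS (fun j => aff (P j)) w' d', H ^ 2 ∣ f) := by
    rcases halt with halt | ⟨H0, c, v, h1, h2, h3, h4, h5, h6, h7, -⟩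
    · refine ⟨1, one_ne_zero, fun K _ _ P _ _ hd => Or.inl fun S hS => ?_⟩
      rw [hd]
      exact halt S hS
    · obtain ⟨F, hF0, hF⟩ := irr_open hP0 h1 h2 h3
        (CL.neg_one (inj_of_alg hP0) h1 h2 h3 h4)
      refine ⟨F, hF0, fun K _ _ P hP hinj _ => Or.inr ?_⟩
      obtain ⟨H, g1, g2, g3⟩ := hF K P hP
      exact ⟨H, c, v, g1, g2, g3, h4, h5, h6, h7, fun f hf => sq_fixed hinj g1 g2 g3 h4 h5 hf⟩
  refine ⟨Fd * Fd' * Fi * (∏ a, Fa a) * Fb, mul_ne_zero (mul_ne_zero (mul_ne_zero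
    (mul_ne_zero hFd0 hFd0') hFi0) (Finset.prod_ne_zero_iff.2 fun a _ => hFa a)) hFb0, ?_⟩
  intro K _ _ P hP hpos
  rw [map_mul, map_mul, map_mul, map_mul, map_prod] at hP
  have p1 := left_ne_zero_of_mul (left_ne_zero_of_mul (left_ne_zero_of_mul
    (left_ne_zero_of_mul hP)))
  have p2 := right_ne_zero_of_mul (left_ne_zero_of_mul (left_ne_zero_of_mul
    (left_ne_zero_of_mul hP)))
  have p3 := right_ne_zero_of_mul (left_ne_zero_of_mul (left_ne_zero_of_mul hP))
  have p4 := Finset.prod_ne_zero_iff.1 (right_ne_zero_of_mul (left_ne_zero_of_mul hP))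
  have p5 := right_ne_zero_of_mul hP
  have hinj := hFi K P p3
  have q1 := hFd K P p1 K0 P0 hP0
  have q2 := hFd' K P p2 K0 P0 hP0
  choose C hC using fun a => hFa' a K P (p4 a (Finset.mem_univ a))
  have hDec : Dec P d w d' w' C e u N := ⟨hC, hD.pos, hD.orth, hD.deg, hD.mul, hD.zero,
    fun H f v hH => by
      obtain ⟨H0, hH0⟩ := exc_gen hinj hH hP0
      exact hD.nef H0 f v hH0⟩
  have hdimP : Module.finrank K ↥(VS (fun j => aff (P j)) w' d') =
      Module.finrank K ↥(VS (fun j => aff (P j)) w d) := by rw [q1, q2, hdim]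
  refine ⟨d', w', k, C, e, u, N, hDec, hdimP, ?_⟩
  rcases hFb K P p5 hinj q2 with h | ⟨H, c, v, h1, h2, h3, h4, h5, h6, h7, h8⟩
  · exact Or.inl h
  · refine Or.inr ⟨H, c, v, h1, h2, h3, h4, h5, h6, h7, fun f hf => ?_⟩
    have hDcp : Dcp P d w d' w' C e u N :=
      ⟨hDec.exc, hDec.pos, hDec.orth, hDec.deg, hDec.mul, hDec.zero⟩
    have hfin := vs_fin (fun j => aff (P j)) w d
    have h9 := Submodule.eq_of_le_of_finrank_eq hDcp.map_le
      (by rw [hDcp.map_finrank, hdimP])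
    rw [← h9] at hf
    obtain ⟨g, hg, rfl⟩ := hf
    rw [LinearMap.mulLeft_apply]
    exact (h8 g hg).mul_left _

end Pool.Agent.TH167.RD
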