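import Pool.Agent.TH167.SM.Pos2

set_option autoImplicit false

/-!
# A squarefree form is the only member of the system through suitable points on it
-/

namespace Pool.Agent.TH167.RD

open MvPolynomial Pool.Agent.W609 Pool.Agent.W609.CR Pool.Agent.TH167.SH Pool.Agent.TH167.TT
  Pool.Agent.TH167.DD Pool.Agent.TH167.SM Pool.Agent.H248R5 Pool.Agent.H248R6
  Pool.Agent.W641.CR

/-- A point of a line outside of another curve. -/
theorem pt_line {K : Type} [Field K] [CharZero K] {g h : MvPolynomial (Fin 3) K}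
    (hg : Irreducible g) (hg1 : g.IsHomogeneous 1)
    (hX : ¬ (X 2 : MvPolynomial (Fin 3) K) ∣ g) {e : ℕ} (hh : h.IsHomogeneous e)
    (hnd : ¬ g ∣ h) : ∃ q : Fin 2 → K, eval (aff q) g = 0 ∧ eval (aff q) h ≠ 0 := by
  classical
  by_contra hcon
  push Not at hcon
  have h0 : h ≠ 0 := fun h0 => hnd (by rw [h0]; exact dvd_zero _)
  obtain ⟨a, ha⟩ : ∃ a : Fin 3 → K, a = fun l => g.coeff (Finsupp.single l 1) := ⟨_, rfl⟩
  have hlin : ∀ v : Fin 3 → K, eval v g = a 0 * v 0 + a 1 * v 1 + a 2 * v 2 := by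
    intro v
    rw [eval_lin hg1, Fin.sum_univ_three, ha]
  have hform : g = C (a 0) * X 0 + C (a 1) * X 1 + C (a 2) * X 2 := by
    have h1 := lin_form hg1
    rw [Fin.sum_univ_three] at h1
    rw [ha]
    exact h1
  obtain ⟨Q, hQ1, hQ2⟩ : ∃ Q : ℕ → Fin 2 → K, Function.Injective Q ∧
      ∀ n, eval (aff (Q n)) g = 0 := by
    by_cases hb : a 1 = 0
    · have ha0 : a 0 ≠ 0 := by
        intro ha0
        apply hX
        rw [hform, ha0, hb]
        exact ⟨C (a 2), by rw [C_0]; ring⟩
      refine ⟨fun n => ![- a 2 / a 0, n], ?_, ?_⟩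
      · intro m n hmn
        have := congrFun hmn 1
        simpa using this
      · intro n
        rw [hlin]
        have e0 : aff ![- a 2 / a 0, (n : K)] 0 = - a 2 / a 0 := rfl
        have e2 : aff ![- a 2 / a 0, (n : K)] 2 = 1 := rfl
        rw [hb, e0, e2]
        field_simp
        ring
    · refine ⟨fun n => ![n, -(a 0 * n + a 2) / a 1], ?_, ?_⟩
      · intro m n hmn
        have := congrFun hmn 0
        simpa using this
      · intro n
        rw [hlin]
        have e0 : aff ![(n : K), -(a 0 * n + a 2) / a 1] 0 = n := rfl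
        have e1 : aff ![(n : K), -(a 0 * n + a 2) / a 1] 1 = -(a 0 * n + a 2) / a 1 := rfl
        have e2 : aff ![(n : K), -(a 0 * n + a 2) / a 1] 2 = 1 := rfl
        rw [e0, e1, e2]
        field_simp
        ring
  have hb := bez (P := fun k : Fin (e + 1) => Q k.1)
    (fun i j hij => Fin.ext (hQ1 hij)) (u := fun _ => 1) (w := fun _ => 1) hg hg1
    (fun j => (SH.van_one _ _).2 (hQ2 _)) h0 hh
    (fun j => (SH.van_one _ _).2 (hcon _ (hQ2 _))) hnd
  simp at hb

theorem point_on {K : Type} [Field K] [CharZero K] [IsAlgClosed K]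
    {g h : MvPolynomial (Fin 3) K} (hg : Irreducible g) {c : ℕ} (hgc : g.IsHomogeneous c)
    (hX : ¬ (X 2 : MvPolynomial (Fin 3) K) ∣ g) {e : ℕ} (hh : h.IsHomogeneous e)
    (hnd : ¬ g ∣ h) : ∃ q : Fin 2 → K, eval (aff q) g = 0 ∧ eval (aff q) h ≠ 0 := by
  have hc := deg_pos hg hgc
  rcases Nat.lt_or_ge c 2 with hlt | hge
  · have : c = 1 := by omega
    subst this
    exact pt_line hg hgc hX hh hnd
  · exact exists_point_on hg hgc hge hh hnd

/-- A squarefree form all of whose prime factors divide another form divides it. -/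
theorem sq_dvd {K : Type} [Field K] {f h : MvPolynomial (Fin 3) K} (hsq : Squarefree f)
    (hall : ∀ p, Irreducible p → p ∣ f → p ∣ h) : f ∣ h := by
  classical
  have hf0 : f ≠ 0 := hsq.ne_zero
  obtain ⟨s, hs1, hs2⟩ := UniqueFactorizationMonoid.exists_prime_factors f hf0
  have key : ∀ t : Multiset (MvPolynomial (Fin 3) K), (∀ p ∈ t, p ∣ h) →
      t.prod ∣ h ^ (Multiset.card t) := by
    intro t
    induction t using Multiset.induction with
    | empty => intro _; simp
    | cons a t ih =>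
      intro ht
      rw [Multiset.prod_cons, Multiset.card_cons, pow_succ, mul_comm]
      exact mul_dvd_mul (ih fun p hp => ht p (Multiset.mem_cons_of_mem hp))
        (ht a (Multiset.mem_cons_self a t))
  have h1 := key s fun p hp => hall p (hs1 p hp).irreducible
    ((Multiset.dvd_prod hp).trans hs2.dvd)
  have h2 : f ∣ h ^ (Multiset.card s) := hs2.symm.dvd.trans h1
  exact hsq.isRadical _ _ h2

/-- A squarefree member which is not divisible by the line at infinity. -/
theorem no_X2 {K : Type} [Field K] [CharZero K] {s : ℕ} {P : Fin s → Fin 2 → K} {w : Fin s → ℕ}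
    {d : ℕ} {f : MvPolynomial (Fin 3) K} (hf : f ∈ VS (fun j => aff (P j)) w d)
    (hsq : Squarefree f) : ∃ f' ∈ VS (fun j => aff (P j)) w d, Squarefree f' ∧
      ¬ (X 2 : MvPolynomial (Fin 3) K) ∣ f' := by
  classical
  by_cases hX : (X 2 : MvPolynomial (Fin 3) K) ∣ f
  · obtain ⟨g, hg⟩ := hX
    have hfm := (mem_VS _ _ _ _).1 hf
    have hf0 : f ≠ 0 := hsq.ne_zero
    have hg0 : g ≠ 0 := fun h0 => hf0 (by rw [hg, h0, mul_zero])
    have hX2 : Irreducible (X 2 : MvPolynomial (Fin 3) K) := (MvPolynomial.X_prime).irreducible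
    have hge := Pool.Agent.Chud.homog_of_dvd hfm.1 hf0 (⟨X 2, by rw [hg]; ring⟩ : g ∣ f)
    have hdeg : 1 + g.totalDegree = d := by
      have h2 := (isHomogeneous_X K (2 : Fin 3)).mul hge
      rw [← hg] at h2
      exact h2.inj_right hfm.1 hf0
    obtain ⟨p0, hp0⟩ := TT.exists_pt hge hg0
    obtain ⟨b, hb⟩ : ∃ b : Fin 2 → K, b = ![p0 0 + 1, p0 1] := ⟨_, rfl⟩
    have hb0 : b 0 = p0 0 + 1 := by rw [hb]; rfl
    have hb1 : b 1 = p0 1 := by rw [hb]; rfl
    have hne : p0 ≠ b := by
      intro h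
      have h1 := congrFun h 0
      rw [hb0] at h1
      exact one_ne_zero (left_eq_add.1 h1)
    have hL := ln_irr hne
    have hLg : ¬ ln p0 b ∣ g := by
      rintro ⟨q, hq⟩
      apply hp0
      rw [hq, map_mul, (SH.van_one _ _).1 (ln_left p0 b), zero_mul]
    have hXL : ¬ (X 2 : MvPolynomial (Fin 3) K) ∣ ln p0 b := by
      rintro ⟨q, hq⟩
      have h1 := congrArg (eval (![0, 1, 0] : Fin 3 → K)) hq
      rw [map_mul, eval_X] at h1
      unfold ln at h1
      simp [hb0] at h1
    have hXg : ¬ (X 2 : MvPolynomial (Fin 3) K) ∣ g := by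
      rintro ⟨q, hq⟩
      apply hX2.not_isUnit
      exact hsq (X 2) ⟨q, by rw [hg, hq]; ring⟩
    refine ⟨ln p0 b * g, ?_, ?_, ?_⟩
    · rw [mem_VS]
      refine ⟨?_, fun j => ?_⟩
      · rw [← hdeg]
        exact (ln_hom p0 b).mul hge
      · have h1 : Ord (aff (P j)) 0 (X 2 : MvPolynomial (Fin 3) K) := by
          refine ⟨van_zero _ _, fun h => ?_⟩
          have h2 := (SH.van_one _ _).1 h
          rw [eval_X] at h2
          exact one_ne_zero h2
        have h2 := hfm.2 j
        rw [hg] at h2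
        have h3 : Van (aff (P j)) (w j) g := van_of_mul h1 (by rwa [zero_add])
        have h4 := van_mul (van_zero (aff (P j)) (ln p0 b)) h3
        rwa [zero_add] at h4
    · rw [squarefree_mul_iff]
      refine ⟨(Irreducible.isRelPrime_iff_not_dvd hL).2 hLg, hL.squarefree, ?_⟩
      rw [hg] at hsq
      exact hsq.of_mul_right
    · intro h
      rcases (MvPolynomial.X_prime).dvd_or_dvd h with h1 | h1
      · exact hXL h1
      · exact hXg h1
  · exact ⟨f, hf, hsq, hX⟩

/-- A squarefree form is the only member of the system through suitable points on it. -/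
theorem pick_sq {K : Type} [Field K] [CharZero K] [IsAlgClosed K] {f : MvPolynomial (Fin 3) K}
    {d : ℕ} (hsq : Squarefree f) (hfd : f.IsHomogeneous d)
    (hX : ¬ (X 2 : MvPolynomial (Fin 3) K) ∣ f) :
    ∀ (n : ℕ) (V : Submodule K (MvPolynomial (Fin 3) K)), (∀ g ∈ V, g.IsHomogeneous d) → f ∈ V →
      Module.finrank K ↥V = n + 1 → ∃ Q : Fin n → Fin 2 → K, (∀ k, eval (aff (Q k)) f = 0) ∧
        ∀ g ∈ V, (∀ k, eval (aff (Q k)) g = 0) → ∃ c : K, c • f = g := by
  classical
  have hf0 : f ≠ 0 := hsq.ne_zero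
  intro n
  induction n with
  | zero =>
    intro V _ hfV h1
    refine ⟨fun k => k.elim0, fun k => k.elim0, fun g hg _ => ?_⟩
    obtain ⟨c, hc⟩ := (finrank_eq_one_iff_of_nonzero' (⟨f, hfV⟩ : ↥V)
      (fun h => hf0 (congrArg Subtype.val h))).1 h1 ⟨g, hg⟩
    exact ⟨c, congrArg Subtype.val hc⟩
  | succ n ih =>
    intro V hV hfV h1
    have hfin : Module.Finite K ↥V := Module.finite_of_finrank_pos (by omega)
    obtain ⟨h, hh, hnd⟩ : ∃ h ∈ V, ¬ f ∣ h := by
      by_contra hcon
      push Not at hcon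
      have hM := mult_finite f 0
      have h3 : V ≤ mult f 0 := by
        intro g hg
        exact mem_mult hfd hf0 (hV g hg) (hcon g hg) fun _ => by omega
      have h4 := Submodule.finrank_mono h3
      rw [mult_finrank hf0, h1] at h4
      have h5 : (0 + 2).choose 2 = 1 := rfl
      omega
    obtain ⟨p, hp, hpf, hph⟩ : ∃ p, Irreducible p ∧ p ∣ f ∧ ¬ p ∣ h := by
      by_contra hcon
      push Not at hcon
      exact hnd (sq_dvd hsq hcon)
    have hpe := Pool.Agent.Chud.homog_of_dvd hfd hf0 hpf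
    obtain ⟨q, hq1, hq2⟩ := point_on hp hpe (fun h => hX (h.trans hpf)) (hV h hh) hph
    have hq1' : eval (aff q) f = 0 := by
      obtain ⟨u, hu⟩ := hpf
      rw [hu, map_mul, hq1, zero_mul]
    obtain ⟨φ, hφ⟩ : ∃ φ : ↥V →ₗ[K] K, ∀ g : ↥V, φ g = eval (aff q) (g : MvPolynomial (Fin 3) K) :=
      ⟨(MvPolynomial.aeval (aff q) : MvPolynomial (Fin 3) K →ₐ[K] K).toLinearMap.comp V.subtype,
        fun g => by
          show aeval (aff q) (g : MvPolynomial (Fin 3) K) = _
          rw [MvPolynomial.aeval_eq_eval]⟩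
    have hsurj : Function.Surjective φ := by
      intro c
      refine ⟨(c * (eval (aff q) h)⁻¹) • ⟨h, hh⟩, ?_⟩
      rw [map_smul, hφ, smul_eq_mul, mul_assoc, inv_mul_cancel₀ hq2, mul_one]
    have hrn := φ.finrank_range_add_finrank_ker
    rw [LinearMap.range_eq_top.2 hsurj, finrank_top, Module.finrank_self, h1] at hrn
    have hker : Module.finrank K ↥((LinearMap.ker φ).map V.subtype) = n + 1 := by
      rw [Submodule.finrank_map_subtype_eq]
      omega
    obtain ⟨Q, hQ1, hQ2⟩ := ih ((LinearMap.ker φ).map V.subtype) (by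
      rintro g ⟨g', -, rfl⟩
      exact hV _ g'.2) ⟨⟨f, hfV⟩, by
        rw [SetLike.mem_coe, LinearMap.mem_ker, hφ]
        exact hq1', rfl⟩ hker
    refine ⟨Fin.cons q Q, fun k => ?_, fun g hg hk => ?_⟩
    · refine Fin.cases ?_ (fun k => ?_) k
      · exact hq1'
      · exact hQ1 k
    · refine hQ2 g ⟨⟨g, hg⟩, ?_, rfl⟩ fun k => hk k.succ
      rw [SetLike.mem_coe, LinearMap.mem_ker, hφ]
      exact hk 0

end Pool.Agent.TH167.RD
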