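import Pool.Agent.TH167.T3.Bound
import Pool.Agent.TH167.SM.Pos2

set_option autoImplicit false

/-!
# Irreducible curves and at most nine of the points
-/

namespace Pool.Agent.TH167.RD

open MvPolynomial Pool.Agent.W609 Pool.Agent.W609.CR Pool.Agent.TH167.SH Pool.Agent.TH167.TT
  Pool.Agent.TH167.DD Pool.Agent.TH167.T3 Pool.Agent.H248R5

theorem map_mul_finrank {K : Type} [Field K] {g : MvPolynomial (Fin 3) K} (hg : g ≠ 0)
    (V : Submodule K (MvPolynomial (Fin 3) K)) :
    Module.finrank K ↥(Submodule.map (LinearMap.mulLeft K g) V) = Module.finrank K ↥V := by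
  have hinj : Function.Injective (LinearMap.mulLeft K g) := by
    intro a b hab
    rw [LinearMap.mulLeft_apply, LinearMap.mulLeft_apply] at hab
    exact mul_left_cancel₀ hg hab
  exact (LinearEquiv.finrank_eq (Submodule.equivMapOfInjective _ hinj _)).symm

theorem quad_one {s : ℕ} {a b : ℕ × (Fin s → ℕ)} (h : Quad a b) (hb : b = (3, fun _ => 1)) :
    a = (3, fun _ => 1) := by
  obtain ⟨d, w⟩ := a
  obtain ⟨i, hi, hp, hb2⟩ := h
  simp only at hp hb2
  rw [hb, Prod.mk.injEq] at hb2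
  obtain ⟨h1, h2⟩ := hb2
  have e0 := cd_cast hp
  rw [← h1] at e0
  have e1 : ∀ j, (1 : ℤ) = w j + dl i d w * ic i j := by
    intro j
    have h3 := wcr_cast hi hp j
    rw [← congrFun h2 j] at h3
    exact_mod_cast h3
  have e2 := e1 (i 0)
  have e3 := e1 (i 1)
  have e4 := e1 (i 2)
  rw [(ic_base i).1] at e2
  rw [(ic_base i).2.1] at e3
  rw [(ic_base i).2.2] at e4
  have e5 : dl i d w = (d : ℤ) - w (i 0) - w (i 1) - w (i 2) := rfl
  have e6 : dl i d w = 0 := by
    push_cast at e0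
    linarith
  rw [Prod.mk.injEq]
  constructor
  · rw [e6] at e0
    push_cast at e0
    omega
  · funext j
    have h3 := e1 j
    rw [e6, zero_mul, add_zero] at h3
    exact_mod_cast h3.symm

theorem chain_one {s : ℕ} {a b : ℕ × (Fin s → ℕ)} (h : Relation.ReflTransGen Quad a b)
    (hb : b = (3, fun _ => 1)) : a = (3, fun _ => 1) := by
  induction h using Relation.ReflTransGen.head_induction_on with
  | refl => exact hb
  | head h1 _ ih => exact quad_one h1 ih

theorem ch_pred (x : ℕ) : (x + 1).choose 2 = (x - 1 + 1).choose 2 + x := by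
  rcases Nat.eq_zero_or_pos x with rfl | hx
  · rfl
  · rw [Nat.sub_add_cancel hx]
    have h7 : (x + 1).choose 2 = x.choose 1 + x.choose 2 := Nat.choose_succ_succ' x 1
    rw [Nat.choose_one_right] at h7
    omega

theorem ch_three {d : ℕ} (hd : 3 ≤ d) : (d + 2).choose 2 = (d - 3 + 2).choose 2 + 3 * d := by
  obtain ⟨d', rfl⟩ : ∃ d', d = d' + 3 := ⟨d - 3, by omega⟩
  have a1 : (d' + 5).choose 2 = (d' + 4).choose 1 + (d' + 4).choose 2 :=
    Nat.choose_succ_succ' (d' + 4) 1
  have a2 : (d' + 4).choose 2 = (d' + 3).choose 1 + (d' + 3).choose 2 :=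
    Nat.choose_succ_succ' (d' + 3) 1
  have a3 : (d' + 3).choose 2 = (d' + 2).choose 1 + (d' + 2).choose 2 :=
    Nat.choose_succ_succ' (d' + 2) 1
  rw [Nat.choose_one_right] at a1 a2 a3
  have e1 : d' + 3 + 2 = d' + 5 := by omega
  have e2 : d' + 3 - 3 + 2 = d' + 2 := by omega
  rw [e1, e2]
  omega

/-- At most nine generic points and a reduced class orthogonal to the canonical class. -/
theorem red_zero {K : Type} [Field K] [CharZero K] {k e : ℕ} (hk : k ≤ 5)
    {w : Fin (k + 4) → ℕ} (hred : Reduced e w) {P : Fin (k + 4) → Fin 2 → K}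
    (hP : AlgebraicIndependent ℚ (fun ij : Fin (k + 4) × Fin 2 => P ij.1 ij.2))
    {G : MvPolynomial (Fin 3) K} (hG : Irreducible G) (hGe : G.IsHomogeneous e)
    (hord : ∀ j, Ord (aff (P j)) (w j) G) (hsum : ∑ j, w j = 3 * e) :
    (e, w) = (3, fun _ => 1) := by
  classical
  have he0 := deg_pos hG hGe
  have hsupp : ∑ j, w j = ∑ j ∈ Finset.univ.filter (fun j => w j ≠ 0), w j := by
    rw [Finset.sum_filter]
    refine Finset.sum_congr rfl fun j _ => ?_
    split_ifs with h
    · rfl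
    · omega
  have hc : ∀ T : Finset (Fin (k + 4)), T.card ≤ 9 := by
    intro T
    have := Finset.card_le_univ T
    rw [Fintype.card_fin] at this
    omega
  have h3 : 3 ≤ (Finset.univ.filter fun j => w j ≠ 0).card := by
    by_contra hcon
    have := red_three hred (S := Finset.univ.filter fun j => w j ≠ 0) (by omega)
    omega
  obtain ⟨he3, hred'⟩ := red_sub hred h3
  have n1 := nine hP hred (hc _)
  have n2 := nine hP hred' (hc _)
  have n3 : ∑ j, (w j + 1).choose 2 = ∑ j, (w j - 1 + 1).choose 2 + ∑ j, w j := by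
    rw [← Finset.sum_add_distrib]
    exact Finset.sum_congr rfl fun j _ => ch_pred (w j)
  have n4 := ch_three he3
  beta_reduce at n2
  -- the cubic
  have hcub : 0 < Module.finrank K ↥(VS (fun j => aff (P j)) (fun _ => 1) 3) := by
    have h5 := chi_le_dim P 3 (fun _ => 1)
    rw [chi_cast] at h5
    have h6 : ∑ j : Fin (k + 4), (1 + 1).choose 2 = k + 4 := by simp
    have h7 : (3 + 2).choose 2 = 10 := rfl
    rw [h6, h7] at h5
    push_cast at h5
    omega
  obtain ⟨Γ, hΓ, hΓ0⟩ := exists_mem hcub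
  have hle : Submodule.map (LinearMap.mulLeft K Γ)
      (VS (fun j => aff (P j)) (fun j => w j - 1) (e - 3)) ≤ VS (fun j => aff (P j)) w e := by
    rintro _ ⟨g, hg, rfl⟩
    have hg' : g ∈ VS (fun j => aff (P j)) (fun j => w j - 1) (e - 3) := hg
    rw [mem_VS] at hg' hΓ ⊢
    rw [LinearMap.mulLeft_apply]
    constructor
    · have h5 := hΓ.1.mul hg'.1
      have h6 : 3 + (e - 3) = e := by omega
      rwa [h6] at h5
    · intro j
      exact van_mono (show w j ≤ 1 + (w j - 1) by omega) (van_mul (hΓ.2 j) (hg'.2 j))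
  have hfin := vs_fin (fun j => aff (P j)) w e
  have heq := Submodule.eq_of_le_of_finrank_eq hle (by rw [map_mul_finrank hΓ0]; omega)
  have hGm : G ∈ VS (fun j => aff (P j)) w e := (mem_VS _ _ _ _).2 ⟨hGe, fun j => (hord j).1⟩
  rw [← heq] at hGm
  obtain ⟨g, hg, hgG⟩ := hGm
  rw [LinearMap.mulLeft_apply] at hgG
  have hg' : g ∈ VS (fun j => aff (P j)) (fun j => w j - 1) (e - 3) := hg
  have hg0 : g ≠ 0 := by
    rintro rfl
    rw [mul_zero] at hgG
    exact hG.ne_zero hgG.symm
  have he : e = 3 := by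
    rcases hG.isUnit_or_isUnit hgG.symm with h5 | h5
    · exact absurd (SM.unit_deg ((mem_VS _ _ _ _).1 hΓ).1 hΓ0 h5) (by norm_num)
    · have := SM.unit_deg ((mem_VS _ _ _ _).1 hg').1 hg0 h5
      omega
  subst he
  have hpos := pos_of_mem (P := P) (w := w) (d := 3)
    ((mem_VS _ _ _ _).2 ⟨hGe, fun j => (hord j).1⟩) hG.ne_zero
  have h7 : (3 + 2).choose 2 = 10 := rfl
  rw [h7] at n1
  rw [n3] at n1
  have h8 : ∑ j, (w j - 1 + 1).choose 2 = 0 := by omega
  rw [Finset.sum_eq_zero_iff] at h8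
  have h9 : ∀ j, w j ≤ 1 := by
    intro j
    have h10 := h8 j (Finset.mem_univ j)
    by_contra hcon
    have h11 : 0 < (w j - 1 + 1).choose 2 := Nat.choose_pos (by omega)
    omega
  have h10 : ∀ j, w j = 1 := by
    intro j
    by_contra hcon
    have h11 : w j = 0 := by
      have := h9 j
      omega
    have h12 : ∑ i, w i = ∑ i ∈ Finset.univ.erase j, w i := by
      rw [← Finset.add_sum_erase _ w (Finset.mem_univ j), h11, zero_add]
    have h13 : ∑ i ∈ Finset.univ.erase j, w i ≤ (Finset.univ.erase j).card := by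
      rw [Finset.card_eq_sum_ones]
      exact Finset.sum_le_sum fun i _ => h9 i
    rw [Finset.card_erase_of_mem (Finset.mem_univ j), Finset.card_univ, Fintype.card_fin] at h13
    omega
  rw [Prod.mk.injEq]
  exact ⟨rfl, funext h10⟩

/-- At most nine generic points. -/
theorem pos_small {K : Type} [Field K] [CharZero K] {k e : ℕ} (hk : k ≤ 5)
    {w : Fin (k + 4) → ℕ} {P : Fin (k + 4) → Fin 2 → K}
    (hP : AlgebraicIndependent ℚ (fun ij : Fin (k + 4) × Fin 2 => P ij.1 ij.2))
    {G : MvPolynomial (Fin 3) K} (hG : Irreducible G) (hGe : G.IsHomogeneous e)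
    (hord : ∀ j, Ord (aff (P j)) (w j) G) :
    ∑ j, w j < 3 * e ∨ (e, w) = (3, fun _ => 1) := by
  classical
  rcases irr_red e P hP w G hG hGe hord with ⟨c1, c2, c3⟩ | ⟨P1, e1, w1, G1, a1, a2, a3, a4, a5,
    a6, a7, a8, a9⟩
  · left
    rw [kk_cast] at c3
    omega
  · obtain ⟨q1, q2, q3⟩ := quad_inv a5
    simp only at q1 q2 q3
    rw [kk_cast, kk_cast] at q2
    have h1 := red_sum a6 3 Finset.univ (by
      rw [Finset.card_univ, Fintype.card_fin]
      omega)
    rcases Nat.lt_or_ge (∑ j, w1 j) (3 * e1) with h2 | h2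
    · left
      omega
    · right
      exact chain_one a5 (red_zero hk a6 a1 a2 a3 a4 (by omega))

/-- At most nine of the points. -/
theorem pos9 {K : Type} [Field K] [CharZero K] {r e : ℕ} {w : Fin (r + 4) → ℕ}
    {S : Finset (Fin (r + 4))} (hS : S.card ≤ 9) {P : Fin (r + 4) → Fin 2 → K}
    (hP : AlgebraicIndependent ℚ (fun ij : Fin (r + 4) × Fin 2 => P ij.1 ij.2))
    {G : MvPolynomial (Fin 3) K} (hG : Irreducible G) (hGe : G.IsHomogeneous e)
    (hord : ∀ j, Ord (aff (P j)) (w j) G) :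
    ∑ j ∈ S, w j < 3 * e ∨ (e = 3 ∧ ∃ i, w i = 1) := by
  classical
  obtain ⟨k, hk, T, hST, hT⟩ : ∃ k, k ≤ 5 ∧ ∃ T : Finset (Fin (r + 4)), S ⊆ T ∧
      T.card = k + 4 := by
    rcases Nat.lt_or_ge S.card 4 with h | h
    · obtain ⟨T, h1, -, h2⟩ := Finset.exists_subsuperset_card_eq (Finset.subset_univ S)
        (show S.card ≤ 4 by omega) (by rw [Finset.card_univ, Fintype.card_fin]; omega)
      exact ⟨0, by omega, T, h1, h2⟩
    · exact ⟨S.card - 4, by omega, S, Finset.Subset.refl S, by omega⟩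
  let ι : Fin (k + 4) → Fin (r + 4) := fun j => ((T.equivFinOfCardEq hT).symm j).1
  have hι : Function.Injective ι := fun a b h =>
    (T.equivFinOfCardEq hT).symm.injective (Subtype.ext h)
  have hP' : AlgebraicIndependent ℚ (fun ij : Fin (k + 4) × Fin 2 => P (ι ij.1) ij.2) := by
    have h4 := hP.comp (fun ij : Fin (k + 4) × Fin 2 => (ι ij.1, ij.2)) (by
      rintro ⟨a, b⟩ ⟨a', b'⟩ h
      rw [Prod.mk.injEq] at h
      exact Prod.ext (hι h.1) h.2)
    exact h4
  have h1 : ∑ j, w (ι j) = ∑ j ∈ T, w j := by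
    rw [← Finset.sum_coe_sort T, ← Equiv.sum_comp (T.equivFinOfCardEq hT).symm]
  rcases pos_small hk (P := fun j => P (ι j)) (w := fun j => w (ι j)) hP' hG hGe
    (fun j => hord (ι j)) with h2 | h2
  · left
    rw [h1] at h2
    exact lt_of_le_of_lt (Finset.sum_le_sum_of_subset hST) h2
  · right
    rw [Prod.mk.injEq] at h2
    exact ⟨h2.1, ι 0, congrFun h2.2 0⟩

/-- The bound for irreducible curves and at most nine exceptions. -/
theorem bound9 {K : Type} [Field K] [CharZero K] [IsAlgClosed K] {r e : ℕ}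
    {w : Fin (r + 4) → ℕ} {S : Finset (Fin (r + 4))} (hS : S.card ≤ 9)
    {P : Fin (r + 4) → Fin 2 → K}
    (hP : AlgebraicIndependent ℚ (fun ij : Fin (r + 4) × Fin 2 => P ij.1 ij.2))
    {G : MvPolynomial (Fin 3) K} (hG : Irreducible G) (hGe : G.IsHomogeneous e)
    (hord : ∀ j, Ord (aff (P j)) (w j) G) :
    (Module.finrank K ↥(VS (fun j => aff (P j)) w e) : ℤ) ≤
      chi e w + ((∑ j, (if j ∈ S then 0 else w j - 2) : ℕ) : ℤ) := by
  classical
  rcases pos9 hS hP hG hGe hord with h1 | ⟨h1, i, hi⟩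
  · exact bound S h1 hP hG hGe hord
  · subst h1
    have h2 : ∀ j, w j ≤ 2 := by
      intro j
      by_cases hij : j = i
      · rw [hij, hi]
        norm_num
      · rcases pair_irr (inj_of_alg hP) hG hGe hord hij with h3 | ⟨h3, -⟩
        · omega
        · omega
    have h3 := (prime9 (S := ∅) (by simp) (fun j _ => h2 j) hP hG hGe hord).1
    rw [h3]
    have : (0 : ℤ) ≤ ((∑ j, (if j ∈ S then 0 else w j - 2) : ℕ) : ℤ) := Int.natCast_nonneg _
    linarith

end Pool.Agent.TH167.RD
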