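import Pool.Agent.TH167.RD.Pos9

set_option autoImplicit false

/-!
# Rigid reduced curves
-/

namespace Pool.Agent.TH167.RD

open MvPolynomial Pool.Agent.W609 Pool.Agent.W609.CR Pool.Agent.TH167.SH Pool.Agent.TH167.TT
  Pool.Agent.TH167.DD Pool.Agent.TH167.T3 Pool.Agent.H248R5

theorem cost_add {s : ℕ} (S : Finset (Fin s)) (u v : Fin s → ℕ) :
    ∑ j, (if j ∈ S then 0 else u j - 2) + ∑ j, (if j ∈ S then 0 else v j - 2) ≤
      ∑ j, (if j ∈ S then 0 else u j + v j - 2) := by
  classical
  rw [← Finset.sum_add_distrib]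
  refine Finset.sum_le_sum fun j _ => ?_
  split_ifs <;> omega

theorem chi_add {s : ℕ} (a b : ℕ) (u v : Fin s → ℕ) :
    chi (a + b) (fun j => u j + v j) = chi a u + chi b v + ip a u b v - 1 := by
  have h1 := two_chi (a + b) (fun j => u j + v j)
  have h2 := two_chi a u
  have h3 := two_chi b v
  have h4 : ip (a + b) (fun j => u j + v j) (a + b) (fun j => u j + v j) =
      ip a u a u + ip b v b v + 2 * ip a u b v := by
    unfold ip
    have h5 : ∑ j, (((u j + v j : ℕ) : ℤ)) * ((u j + v j : ℕ) : ℤ) =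
        ∑ j, (u j : ℤ) * u j + ∑ j, (v j : ℤ) * v j + 2 * ∑ j, (u j : ℤ) * v j := by
      rw [Finset.mul_sum, ← Finset.sum_add_distrib, ← Finset.sum_add_distrib]
      refine Finset.sum_congr rfl fun j _ => ?_
      push_cast
      ring
    rw [h5]
    push_cast
    ring
  have h5 : kk (a + b) (fun j => u j + v j) = kk a u + kk b v := by
    unfold kk
    have h6 : ∑ j, (((u j + v j : ℕ) : ℤ)) = ∑ j, (u j : ℤ) + ∑ j, (v j : ℤ) := by
      rw [← Finset.sum_add_distrib]
      refine Finset.sum_congr rfl fun j _ => ?_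
      push_cast
      ring
    rw [h6]
    push_cast
    ring
  rw [h4, h5] at h1
  omega

/-- Rigid reduced curves. -/
theorem rigid_red {K : Type} [Field K] [CharZero K] [IsAlgClosed K] {r : ℕ}
    {S : Finset (Fin (r + 4))} (hS : S.card ≤ 9) {P : Fin (r + 4) → Fin 2 → K}
    (hP : AlgebraicIndependent ℚ (fun ij : Fin (r + 4) × Fin 2 => P ij.1 ij.2)) :
    ∀ (e : ℕ) (w : Fin (r + 4) → ℕ) (G : MvPolynomial (Fin 3) K), Squarefree G →
      G.IsHomogeneous e → (∀ j, Ord (aff (P j)) (w j) G) →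
      Module.finrank K ↥(VS (fun j => aff (P j)) w e) = 1 →
      (1 : ℤ) ≤ chi e w + ((∑ j, (if j ∈ S then 0 else w j - 2) : ℕ) : ℤ) := by
  classical
  intro e
  induction e using Nat.strong_induction_on with
  | _ e ih =>
    intro w G hsq hGe hord h1
    have hG0 : G ≠ 0 := hsq.ne_zero
    by_cases hu : IsUnit G
    · have he : e = 0 := SM.unit_deg hGe hG0 hu
      subst he
      have hw : ∀ j, w j = 0 := by
        intro j
        have := van_le hG0 hGe (hord j).1
        omega
      rw [chi_cast]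
      have h2 : ∑ j, (w j + 1).choose 2 = 0 := Finset.sum_eq_zero fun j _ => by rw [hw j]; rfl
      have h3 : (0 + 2).choose 2 = 1 := rfl
      rw [h2, h3]
      have : (0 : ℤ) ≤ ((∑ j, (if j ∈ S then 0 else w j - 2) : ℕ) : ℤ) := Int.natCast_nonneg _
      push_cast at this ⊢
      linarith
    · obtain ⟨G1, hG1, hG1d⟩ := WfDvdMonoid.exists_irreducible_factor hu hG0
      obtain ⟨H, hH⟩ := hG1d
      have hH0 : H ≠ 0 := fun h0 => hG0 (by rw [hH, h0, mul_zero])
      have hG1e := Pool.Agent.Chud.homog_of_dvd hGe hG0 (⟨H, hH⟩ : G1 ∣ G)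
      have hHe := Pool.Agent.Chud.homog_of_dvd hGe hG0 (⟨G1, by rw [hH]; ring⟩ : H ∣ G)
      obtain ⟨a, ha⟩ : ∃ a, a = G1.totalDegree := ⟨_, rfl⟩
      obtain ⟨b, hb⟩ : ∃ b, b = H.totalDegree := ⟨_, rfl⟩
      rw [← ha] at hG1e
      rw [← hb] at hHe
      have ha0 := deg_pos hG1 hG1e
      have hdeg : a + b = e := by
        have h2 := hG1e.mul hHe
        rw [← hH] at h2
        exact h2.inj_right hGe hG0
      choose u hu2 using fun j => exists_ord (p := P j) hG1.ne_zero hG1e
      choose v hv2 using fun j => exists_ord (p := P j) hH0 hHe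
      have hw : w = fun j => u j + v j := by
        funext j
        have h2 := ord_mul (hu2 j) (hv2 j)
        rw [← hH] at h2
        exact ord_unique (hord j) h2
      have hnd : ¬ G1 ∣ H := by
        rintro ⟨q, hq⟩
        exact hG1.not_isUnit (hsq G1 ⟨q, by rw [hH, hq]; ring⟩)
      have hHsq : Squarefree H := by
        rw [hH] at hsq
        exact hsq.of_mul_right
      have hfin := vs_fin (fun j => aff (P j)) w e
      have hGm1 : G1 ∈ VS (fun j => aff (P j)) u a :=
        (mem_VS _ _ _ _).2 ⟨hG1e, fun j => (hu2 j).1⟩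
      have hHm : H ∈ VS (fun j => aff (P j)) v b := (mem_VS _ _ _ _).2 ⟨hHe, fun j => (hv2 j).1⟩
      have hle1 : Submodule.map (LinearMap.mulLeft K H) (VS (fun j => aff (P j)) u a) ≤
          VS (fun j => aff (P j)) w e := by
        rintro _ ⟨g, hg, rfl⟩
        have hg' := (mem_VS _ _ _ _).1 hg
        rw [mem_VS, LinearMap.mulLeft_apply, hw, ← hdeg, add_comm a b]
        refine ⟨hHe.mul hg'.1, fun j => ?_⟩
        have h3 := van_mul (hv2 j).1 (hg'.2 j)
        rwa [add_comm (v j) (u j)] at h3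
      have hle2 : Submodule.map (LinearMap.mulLeft K G1) (VS (fun j => aff (P j)) v b) ≤
          VS (fun j => aff (P j)) w e := by
        rintro _ ⟨g, hg, rfl⟩
        have hg' := (mem_VS _ _ _ _).1 hg
        rw [mem_VS, LinearMap.mulLeft_apply, hw, ← hdeg]
        exact ⟨hG1e.mul hg'.1, fun j => van_mul (hu2 j).1 (hg'.2 j)⟩
      have f1 := Submodule.finrank_mono hle1
      have f2 := Submodule.finrank_mono hle2
      rw [map_mul_finrank hH0, h1] at f1
      rw [map_mul_finrank hG1.ne_zero, h1] at f2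
      have f3 := pos_of_mem hGm1 hG1.ne_zero
      have f4 := pos_of_mem hHm hH0
      have b1 := bound9 hS hP hG1 hG1e hu2
      have b2 := ih b (by omega) v H hHsq hHe hv2 (by omega)
      have b3 := bez (inj_of_alg hP) hG1 hG1e (fun j => (hu2 j).1) hH0 hHe
        (fun j => (hv2 j).1) hnd
      have b4 := cost_add S u v
      have b5 := chi_add a b u v
      have b6 : 0 ≤ ip a u b v := by
        unfold ip
        have h5 : ((∑ j, u j * v j : ℕ) : ℤ) ≤ ((a * b : ℕ) : ℤ) := by exact_mod_cast b3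
        push_cast at h5
        linarith
      have b7 : (1 : ℤ) ≤ (Module.finrank K ↥(VS (fun j => aff (P j)) u a) : ℤ) := by
        exact_mod_cast f3
      rw [hw, ← hdeg, b5]
      have b8 : ((∑ j, (if j ∈ S then 0 else u j - 2) + ∑ j, (if j ∈ S then 0 else v j - 2) :
          ℕ) : ℤ) ≤ ((∑ j, (if j ∈ S then 0 else u j + v j - 2) : ℕ) : ℤ) := by exact_mod_cast b4
      rw [Nat.cast_add] at b8
      linarith

end Pool.Agent.TH167.RD
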