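import Pool.Agent.TH167.RD.Rigid
import Pool.Agent.TH167.RD.Point
import Pool.Agent.TH167.T3.Super

set_option autoImplicit false

/-!
# The superabundance of systems with a reduced member
-/

namespace Pool.Agent.TH167.RD

open MvPolynomial Pool.Agent.W609 Pool.Agent.W609.CR Pool.Agent.TH167.SH Pool.Agent.TH167.TT
  Pool.Agent.TH167.DD Pool.Agent.TH167.T3 Pool.Agent.H248R5 Pool.Agent.H248R6
  Pool.Agent.W641.CR Pool.Agent.TH167.SM

/-- The dimension is the generic one on an open set. -/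
theorem open_dim {s : ℕ} (w : Fin s → ℕ) (d : ℕ) :
    ∃ F : MvPolynomial (Fin s × Fin 2) ℚ, F ≠ 0 ∧
      ∀ (K : Type) [Field K] [CharZero K] (P : Fin s → Fin 2 → K), evP P F ≠ 0 →
        ∀ (K0 : Type) [Field K0] [CharZero K0] (P0 : Fin s → Fin 2 → K0),
          AlgebraicIndependent ℚ (fun ij : Fin s × Fin 2 => P0 ij.1 ij.2) →
          Module.finrank K ↥(VS (fun j => aff (P j)) w d) =
            Module.finrank K0 ↥(VS (fun j => aff (P0 j)) w d) := by
  classical
  obtain ⟨L, i1, i2, R, hR⟩ := exists_generic s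
  obtain ⟨r, c, h⟩ := exists_sub ((cmat w d).map
    (MvPolynomial.aeval (fun ij : Fin s × Fin 2 => R ij.1 ij.2)).toRingHom) rfl
  refine ⟨((cmat w d).submatrix r c).det, ?_, ?_⟩
  · intro h0
    apply h
    have h1 : (((cmat w d).map (MvPolynomial.aeval
        (fun ij : Fin s × Fin 2 => R ij.1 ij.2)).toRingHom).submatrix r c).det =
        (MvPolynomial.aeval (fun ij : Fin s × Fin 2 => R ij.1 ij.2)).toRingHom
          ((cmat w d).submatrix r c).det := by
      rw [RingHom.map_det]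
      rfl
    rw [h1, h0, map_zero]
  · intro K _ _ P hP K0 _ _ P0 hP0
    have h1 := vs_rank P w d
    have h2 := vs_rank R w d
    have h3 := gen_eq hR hP0 w d
    have h4 := semi hR P w d
    have h5 : (((cmat w d).map (MvPolynomial.aeval
        (fun ij : Fin s × Fin 2 => P ij.1 ij.2)).toRingHom).submatrix r c).det ≠ 0 := by
      have h6 : (((cmat w d).map (MvPolynomial.aeval
          (fun ij : Fin s × Fin 2 => P ij.1 ij.2)).toRingHom).submatrix r c).det =
          (MvPolynomial.aeval (fun ij : Fin s × Fin 2 => P ij.1 ij.2)).toRingHom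
            ((cmat w d).submatrix r c).det := by
        rw [RingHom.map_det]
        rfl
      rw [h6]
      exact hP
    have h6 := Matrix.rank_of_det_ne_zero h5
    rw [Fintype.card_fin] at h6
    have h7 : (((cmat w d).map (MvPolynomial.aeval
        (fun ij : Fin s × Fin 2 => P ij.1 ij.2)).toRingHom).submatrix r c).rank ≤
        ((cmat w d).map (MvPolynomial.aeval
          (fun ij : Fin s × Fin 2 => P ij.1 ij.2)).toRingHom).rank :=
      Matrix.rank_submatrix_le _ _ _
    rw [h6] at h7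
    omega

/-- Generic points over an algebraically closed field. -/
theorem exists_closed (s : ℕ) : ∃ (K : Type) (_ : Field K) (_ : CharZero K) (_ : IsAlgClosed K)
    (P : Fin s → Fin 2 → K), AlgebraicIndependent ℚ (fun ij : Fin s × Fin 2 => P ij.1 ij.2) := by
  obtain ⟨K, i1, i2, P, hP⟩ := exists_generic s
  have i3 : CharZero (AlgebraicClosure K) :=
    charZero_of_injective_algebraMap (FaithfulSMul.algebraMap_injective K (AlgebraicClosure K))
  refine ⟨AlgebraicClosure K, inferInstance, i3, inferInstance,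
    fun i a => algebraMap K (AlgebraicClosure K) (P i a), ?_⟩
  exact hP.map' (f := IsScalarTower.toAlgHom ℚ K (AlgebraicClosure K))
    (FaithfulSMul.algebraMap_injective K (AlgebraicClosure K))

/-- The superabundance of systems with a reduced member. -/
theorem super_sp {K : Type} [Field K] [CharZero K] [IsAlgClosed K] {s : ℕ}
    {P : Fin s → Fin 2 → K} {w : Fin s → ℕ} {d : ℕ}
    (hgen : ∀ (K0 : Type) [Field K0] [CharZero K0] (P0 : Fin s → Fin 2 → K0),
      AlgebraicIndependent ℚ (fun ij : Fin s × Fin 2 => P0 ij.1 ij.2) →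
      Module.finrank K ↥(VS (fun j => aff (P j)) w d) =
        Module.finrank K0 ↥(VS (fun j => aff (P0 j)) w d))
    {f0 : MvPolynomial (Fin 3) K} (hf0 : f0 ∈ VS (fun j => aff (P j)) w d) (hsq0 : Squarefree f0)
    {S : Finset (Fin s)} (hS : S.card ≤ 9) :
    (Module.finrank K ↥(VS (fun j => aff (P j)) w d) : ℤ) ≤
      chi d w + ((∑ j, (if j ∈ S then 0 else w j - 2) : ℕ) : ℤ) := by
  classical
  obtain ⟨f, hf, hsq, hX⟩ := no_X2 hf0 hsq0
  have hfm := (mem_VS _ _ _ _).1 hf
  have hfne : f ≠ 0 := hsq.ne_zero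
  have hfin := vs_fin (fun j => aff (P j)) w d
  have hpos := pos_of_mem hf hfne
  obtain ⟨n, hn⟩ : ∃ n, Module.finrank K ↥(VS (fun j => aff (P j)) w d) = n + 1 :=
    ⟨Module.finrank K ↥(VS (fun j => aff (P j)) w d) - 1, by omega⟩
  -- special points
  obtain ⟨Q0, hQ0, hQ1⟩ := pick_sq hsq hfm.1 hX n (VS (fun j => aff (P j)) w d)
    (fun g hg => ((mem_VS _ _ _ _).1 hg).1) hf hn
  obtain ⟨Q2, hQ2⟩ : ∃ Q2 : Fin (n + 4) → Fin 2 → K, ∀ (k : Fin (n + 4)) (h : k.1 < n),
      Q2 k = Q0 ⟨k.1, h⟩ :=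
    ⟨fun k => if h : k.1 < n then Q0 ⟨k.1, h⟩ else 0, fun k h => dif_pos h⟩
  have hmem : ∀ g : MvPolynomial (Fin 3) K, g ∈ VS (fun j => aff (PPt P Q2 j))
      (wwt w (fun k : Fin (n + 4) => if k.1 < n then 1 else 0)) d ↔
      g ∈ VS (fun j => aff (P j)) w d ∧ ∀ k, eval (aff (Q0 k)) g = 0 := by
    intro g
    rw [mem_PPt]
    refine and_congr Iff.rfl ⟨fun h k => ?_, fun h k => ?_⟩
    · have h2 := h (Fin.castAdd 4 k)
      rw [if_pos (show (Fin.castAdd 4 k).1 < n from k.2), hQ2 _ k.2] at h2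
      exact TT.van_one.1 h2
    · split_ifs with hk
      · rw [hQ2 k hk]
        exact TT.van_one.2 (h _)
      · exact van_zero _ _
  have hfs := (hmem f).2 ⟨hf, hQ0⟩
  have h1s : Module.finrank K ↥(VS (fun j => aff (PPt P Q2 j))
      (wwt w (fun k : Fin (n + 4) => if k.1 < n then 1 else 0)) d) = 1 := by
    refine (finrank_eq_one_iff_of_nonzero' ⟨f, hfs⟩
      (fun h => hfne (congrArg Subtype.val h))).2 fun g => ?_
    obtain ⟨g1, g2⟩ := (hmem g.1).1 g.2
    obtain ⟨c, hc⟩ := hQ1 g.1 g1 g2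
    exact ⟨c, Subtype.ext hc⟩
  -- generic points
  obtain ⟨L, i1, i2, i3, R, hR⟩ := exists_closed (s + (n + 4))
  obtain ⟨A, hA⟩ : ∃ A : Fin s → Fin 2 → L, A = fun i => R (finSumFinEquiv (Sum.inl i)) :=
    ⟨_, rfl⟩
  obtain ⟨B, hB⟩ : ∃ B : Fin (n + 4) → Fin 2 → L, B = fun k => R (finSumFinEquiv (Sum.inr k)) :=
    ⟨_, rfl⟩
  have hRAB : R = PPt A B := by
    funext j
    obtain ⟨x, rfl⟩ := finSumFinEquiv.surjective j
    rcases x with i | k
    · rw [PPt_inl, hA]
      rfl
    · rw [PPt_inr, hB]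
  have hAg : AlgebraicIndependent ℚ (fun ij : Fin s × Fin 2 => A ij.1 ij.2) := by
    have h4 := hR.comp (fun ij : Fin s × Fin 2 =>
      ((finSumFinEquiv (Sum.inl ij.1) : Fin (s + (n + 4))), ij.2)) (by
      rintro ⟨a, b⟩ ⟨a', b'⟩ h
      rw [Prod.mk.injEq] at h
      exact Prod.ext (Sum.inl.inj (finSumFinEquiv.injective h.1)) h.2)
    rw [hA]
    exact h4
  have hAn : Module.finrank L ↥(VS (fun j => aff (A j)) w d) = n + 1 := by
    rw [← hgen L A hAg, hn]
  have hfinA := vs_fin (fun j => aff (A j)) w d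
  have hmemR : ∀ g : MvPolynomial (Fin 3) L, g ∈ VS (fun j => aff (R j))
      (wwt w (fun k : Fin (n + 4) => if k.1 < n then 1 else 0)) d ↔
      g ∈ VS (fun j => aff (A j)) w d ∧
        ∀ k : Fin (n + 4), Van (aff (B k)) (if k.1 < n then 1 else 0) g := by
    intro g
    have h5 := mem_PPt A B w (fun k : Fin (n + 4) => if k.1 < n then 1 else 0) d g
    rw [← hRAB] at h5
    exact h5
  obtain ⟨φ, hφ⟩ : ∃ φ : ↥(VS (fun j => aff (A j)) w d) →ₗ[L] (Fin n → L), ∀ g k,
      φ g k = eval (aff (B ⟨k.1, by omega⟩)) (g : MvPolynomial (Fin 3) L) :=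
    ⟨LinearMap.pi fun k : Fin n =>
      (MvPolynomial.aeval (aff (B ⟨k.1, by omega⟩)) :
        MvPolynomial (Fin 3) L →ₐ[L] L).toLinearMap.comp
          (VS (fun j => aff (A j)) w d).subtype, fun g k => by
        show aeval (aff (B ⟨k.1, _⟩)) (g : MvPolynomial (Fin 3) L) = _
        rw [MvPolynomial.aeval_eq_eval]⟩
  obtain ⟨G, hGm, hG0⟩ : ∃ G ∈ VS (fun j => aff (R j))
      (wwt w (fun k : Fin (n + 4) => if k.1 < n then 1 else 0)) d, G ≠ 0 := by
    have h5 : LinearMap.ker φ ≠ ⊥ := LinearMap.ker_ne_bot_of_finrank_lt (by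
      rw [hAn, Module.finrank_fintype_fun_eq_card, Fintype.card_fin]
      omega)
    obtain ⟨g, hg, hg0⟩ := (Submodule.ne_bot_iff _).1 h5
    refine ⟨g.1, (hmemR g.1).2 ⟨g.2, fun k => ?_⟩, fun h => hg0 (Subtype.ext h)⟩
    split_ifs with hk
    · refine TT.van_one.2 ?_
      have h6 := congrFun (LinearMap.mem_ker.1 hg) ⟨k.1, hk⟩
      rw [hφ] at h6
      exact h6
    · exact van_zero _ _
  have h1 : Module.finrank L ↥(VS (fun j => aff (R j))
      (wwt w (fun k : Fin (n + 4) => if k.1 < n then 1 else 0)) d) = 1 := by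
    refine le_antisymm ?_ (pos_of_mem hGm hG0)
    exact (semi hR (PPt P Q2)
      (wwt w (fun k : Fin (n + 4) => if k.1 < n then 1 else 0)) d).trans h1s.le
  have hGsq : Squarefree G := sq_of_special hR h1s hfs hfne hsq hGm hG0
  -- the bound for the rigid system
  obtain ⟨ww, hww⟩ : ∃ ww, ww = wwt w (fun k : Fin (n + 4) => if k.1 < n then 1 else 0) :=
    ⟨_, rfl⟩
  obtain ⟨T, hT⟩ : ∃ T : Finset (Fin (s + (n + 4))),
    T = S.map ⟨fun j => finSumFinEquiv (Sum.inl j), fun a b h => by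
      simpa using h⟩ := ⟨_, rfl⟩
  have hTc : T.card ≤ 9 := by
    rw [hT, Finset.card_map]
    exact hS
  have hTl : ∀ i : Fin s, finSumFinEquiv (Sum.inl i) ∈ T ↔ i ∈ S := by
    intro i
    rw [hT, Finset.mem_map]
    constructor
    · rintro ⟨j, hj, hij⟩
      have h2 : (finSumFinEquiv (Sum.inl j) : Fin (s + (n + 4))) = finSumFinEquiv (Sum.inl i) := hij
      have h3 := Sum.inl.inj (finSumFinEquiv.injective h2)
      rwa [← h3]
    · intro hi
      exact ⟨i, hi, rfl⟩
  have hTr : ∀ k : Fin (n + 4), (finSumFinEquiv (Sum.inr k) : Fin (s + (n + 4))) ∉ T := by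
    intro k hk
    rw [hT, Finset.mem_map] at hk
    obtain ⟨j, -, hij⟩ := hk
    have h2 : (finSumFinEquiv (Sum.inl j) : Fin (s + (n + 4))) = finSumFinEquiv (Sum.inr k) := hij
    exact absurd (finSumFinEquiv.injective h2) (by simp)
  rw [← hww] at hGm h1
  have hb := rigid_red (r := s + n) (S := T) hTc hR d ww G hGsq ((mem_VS _ _ _ _).1 hGm).1
    (exact_ord hR h1 hGm hG0) h1
  have hcost : ∑ j, (if j ∈ T then 0 else ww j - 2) = ∑ j, (if j ∈ S then 0 else w j - 2) := by
    rw [← Equiv.sum_comp finSumFinEquiv, Fintype.sum_sum_type]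
    have e1 : ∀ i : Fin s, (if finSumFinEquiv (Sum.inl i) ∈ T then 0 else
        ww (finSumFinEquiv (Sum.inl i)) - 2) = if i ∈ S then 0 else w i - 2 := by
      intro i
      rw [hww, wwt_inl]
      by_cases hi : i ∈ S
      · rw [if_pos hi, if_pos ((hTl i).2 hi)]
      · rw [if_neg hi, if_neg fun h => hi ((hTl i).1 h)]
    have e2 : ∀ k : Fin (n + 4), (if finSumFinEquiv (Sum.inr k) ∈ T then 0 else
        ww (finSumFinEquiv (Sum.inr k)) - 2) = 0 := by
      intro k
      rw [if_neg (hTr k), hww, wwt_inr]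
      split_ifs <;> rfl
    rw [Finset.sum_congr rfl fun i _ => e1 i, Finset.sum_congr rfl fun k _ => e2 k]
    simp
  have hb2 : (1 : ℤ) ≤ chi (s := s + (n + 4)) d ww +
      ((∑ j : Fin (s + (n + 4)), (if j ∈ T then 0 else ww j - 2) : ℕ) : ℤ) := hb
  rw [hcost, chi_cast, hww, wwt_choose (n := n) w] at hb2
  rw [hn, chi_cast]
  push_cast at hb2 ⊢
  linarith

end Pool.Agent.TH167.RD
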